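import Pool.Agent.SDN.Frames
import Pool.Agent.SDN.CoarseW
import Pool.Agent.SDN.WordNb

/-!
NC (natural content): the cells visited by a time interval of a walk.
-/

set_option autoImplicit false

namespace HexObs

namespace NC

open Finset TS SDN

/-- the cells of the scale b visited at the times x, ..., y -/
def cI (b : ℕ) (t : List Bool) (x y : ℕ) : Finset (ℤ × ℤ) := (Finset.Icc x y).image fun i => cell b (vx oo up t i)

/-- their number -/
def nI (b : ℕ) (t : List Bool) (x y : ℕ) : ℕ := (cI b t x y).card

lemma nI_pos {b : ℕ} {t : List Bool} {x y : ℕ} (h : x ≤ y) : 1 ≤ nI b t x y := by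
  unfold nI cI
  rw [Nat.one_le_iff_ne_zero, Ne, card_eq_zero, image_eq_empty, Finset.Icc_eq_empty_iff]
  omega

lemma nI_mono {b : ℕ} {t : List Bool} {x y x' y' : ℕ} (h1 : x ≤ x') (h2 : y' ≤ y) : nI b t x' y' ≤ nI b t x y :=
  card_le_card (image_subset_image (Finset.Icc_subset_Icc h1 h2))

lemma cI_succ (b : ℕ) (t : List Bool) (x y : ℕ) : cI (b + 1) t x y = (cI b t x y).image WNb.par2 := by
  unfold cI
  rw [Finset.image_image]
  apply Finset.image_congr
  intro i _
  exact WNb.cell_succ b _

lemma nI_succ (b : ℕ) (t : List Bool) (x y : ℕ) : nI (b + 1) t x y ≤ nI b t x y := by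
  unfold nI
  rw [cI_succ]
  exact card_image_le

lemma nI_anti {b b' : ℕ} (h : b ≤ b') (t : List Bool) (x y : ℕ) : nI b' t x y ≤ nI b t x y := by
  induction b', h using Nat.le_induction with
  | base => exact le_rfl
  | succ b' _ ih => exact (nI_succ b' t x y).trans ih

lemma nI_four (b : ℕ) (t : List Bool) (x y : ℕ) : nI b t x y ≤ 4 * nI (b + 1) t x y := by
  unfold nI
  rw [cI_succ]
  refine (Finset.card_le_mul_card_image (cI b t x y) 4 fun a _ => WNb.fiber_four _ a).trans (le_of_eq ?_)
  ring

lemma nI_pow (b q : ℕ) (t : List Bool) (x y : ℕ) : nI b t x y ≤ 4 ^ q * nI (b + q) t x y := by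
  induction q with
  | zero => simp
  | succ q ih =>
    have := nI_four (b + q) t x y
    calc nI b t x y ≤ 4 ^ q * nI (b + q) t x y := ih
      _ ≤ 4 ^ q * (4 * nI (b + q + 1) t x y) := Nat.mul_le_mul_left _ this
      _ = _ := by rw [pow_succ]; ring_nf

/-- the cells of an infix in its own frame -/
theorem nb_infix {b : ℕ} {t : List Bool} {x y x' n : ℕ} (h1 : x ≤ x') (h2 : x' + n ≤ y) (h3 : x' + n ≤ t.length) :
    nb b ((t.drop x').take n) ≤ 16 * nI b t x y := by
  obtain ⟨c, hc, -, h4⟩ := drop_frame' t x'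
  have h := (cells_frame c (vx oo up t x') hc b
    ((range (n + 1)).image fun i => vx oo up (t.drop x') i)).2
  rw [image_image, image_image] at h
  have hlen : ((t.drop x').take n).length = n := by
    rw [List.length_take, List.length_drop]
    omega
  have hv : ∀ i, i ≤ n → vx oo up ((t.drop x').take n) i = vx oo up (t.drop x') i := by
    intro i hi
    have := vx_append (v0 := oo) (d0 := up) (t := (t.drop x').take n) (s := (t.drop x').drop n) (i := i)
      (by rw [hlen]; omega)
    rw [List.take_append_drop] at this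
    exact this.symm
  have e1 : cells b ((t.drop x').take n) = (range (n + 1)).image ((fun v => cell b v) ∘ fun i => vx oo up (t.drop x') i) := by
    unfold cells
    rw [hlen]
    apply Finset.image_congr
    intro i hi
    simp only [Finset.coe_range, Set.mem_Iio] at hi
    simp only [Function.comp_apply]
    rw [hv i (by omega)]
  unfold nb
  rw [e1]
  refine h.trans (Nat.mul_le_mul_left _ (card_le_card ?_))
  intro z hz
  rw [mem_image] at hz
  obtain ⟨i, hi, rfl⟩ := hz
  rw [mem_range] at hi
  simp only [Function.comp_apply]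
  rw [← h4]
  exact mem_image_of_mem _ (Finset.mem_Icc.2 ⟨by omega, by omega⟩)

/-- discrete intermediate values -/
lemma ivt_image {s : ℕ → ℤ} {x y : ℕ} (hs : ∀ i, |s (i + 1) - s i| ≤ 1) {i j : ℕ} (hi : x ≤ i) (hij : i ≤ j) (hj : j ≤ y) :
    |s j - s i| + 1 ≤ (((Finset.Icc x y).image s).card : ℤ) := by
  have key : ∀ d, i + d ≤ y → ∀ z : ℤ, min (s i) (s (i + d)) ≤ z → z ≤ max (s i) (s (i + d)) → z ∈ (Finset.Icc x y).image s := by
    intro d
    induction d with
    | zero =>
      intro hd z h1 h2
      rw [Nat.add_zero, min_self] at h1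
      rw [Nat.add_zero, max_self] at h2
      rw [le_antisymm h2 h1]
      exact mem_image_of_mem _ (Finset.mem_Icc.2 ⟨hi, by omega⟩)
    | succ d ih =>
      intro hd z h1 h2
      have h3 := hs (i + d)
      rw [abs_le] at h3
      by_cases h4 : min (s i) (s (i + d)) ≤ z ∧ z ≤ max (s i) (s (i + d))
      · exact ih (by omega) z h4.1 h4.2
      · have h5 : z = s (i + (d + 1)) := by
          rw [← add_assoc] at h1 h2 ⊢
          rcases min_cases (s i) (s (i + d)) with a | a <;> rcases max_cases (s i) (s (i + d)) with b | b <;>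
            rcases min_cases (s i) (s (i + d + 1)) with c | c <;> rcases max_cases (s i) (s (i + d + 1)) with d' | d' <;>
            omega
        rw [h5]
        exact mem_image_of_mem _ (Finset.mem_Icc.2 ⟨by omega, hd⟩)
  obtain ⟨d, rfl⟩ := Nat.exists_eq_add_of_le hij
  have h1 : Finset.Icc (min (s i) (s (i + d))) (max (s i) (s (i + d))) ⊆ (Finset.Icc x y).image s := by
    intro z hz
    rw [Finset.mem_Icc] at hz
    exact key d hj z hz.1 hz.2
  have h2 := card_le_card h1
  rw [Int.card_Icc] at h2
  have h3 : (((max (s i) (s (i + d)) + 1 - min (s i) (s (i + d))).toNat : ℕ) : ℤ) =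
      max (s i) (s (i + d)) + 1 - min (s i) (s (i + d)) := Int.toNat_of_nonneg (by
    have := min_le_max (a := s i) (b := s (i + d))
    omega)
  have h4 : |s (i + d) - s i| = max (s i) (s (i + d)) - min (s i) (s (i + d)) := by
    rcases abs_cases (s (i + d) - s i) with a | a <;> rcases min_cases (s i) (s (i + d)) with b | b <;>
      rcases max_cases (s i) (s (i + d)) with c | c <;> omega
  rw [h4]
  have h5 : (((max (s i) (s (i + d)) + 1 - min (s i) (s (i + d))).toNat : ℕ) : ℤ) ≤ (((Finset.Icc x y).image s).card : ℤ) := by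
    exact_mod_cast h2
  omega

/-- the displacement of a level is at most the number of the cells -/
theorem lvl_nI {b : ℕ} {t : List Bool} {x y : ℕ} (dir : Bool) {i j : ℕ} (hi : x ≤ i) (hi' : i ≤ y) (hj : x ≤ j)
    (hj' : j ≤ y) : |lvl dir (vx oo up t j) - lvl dir (vx oo up t i)| ≤ 3 * 2 ^ b * nI b t x y := by
  wlog hij : i ≤ j generalizing i j
  · rw [abs_sub_comm]
    exact this hj hj' hi hi' (by omega)
  have hp : (0 : ℤ) < 2 ^ b := by positivity
  obtain ⟨s, hs⟩ : ∃ s : ℕ → ℤ, s = fun i => row dir (vx oo up t i) / 2 ^ b := ⟨_, rfl⟩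
  have hstep : ∀ i, |s (i + 1) - s i| ≤ 1 := by
    intro i
    have h1 := (Crs.stp_rws dir t).2 i
    unfold rws at h1
    rw [hs]
    simp only
    rw [abs_le] at h1 ⊢
    have e1 : row dir (vx oo up t (i + 1)) ≤ row dir (vx oo up t i) + 1 := by linarith
    have e2 : row dir (vx oo up t i) ≤ row dir (vx oo up t (i + 1)) + 1 := by linarith
    have hadd : ∀ a c : ℤ, a ≤ c + 1 → a / 2 ^ b ≤ c / 2 ^ b + 1 := by
      intro a c hac
      calc a / 2 ^ b ≤ (c + 2 ^ b) / 2 ^ b := Int.ediv_le_ediv hp (by omega)
        _ = c / 2 ^ b + 1 := Int.add_ediv_of_dvd_right (dvd_refl _) |>.trans (by rw [Int.ediv_self hp.ne'])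
    have f1 := hadd _ _ e1
    have f2 := hadd _ _ e2
    constructor <;> linarith
  have h2 := ivt_image hstep hi hij hj'
  have h3 : ((Finset.Icc x y).image s).card ≤ nI b t x y := by
    unfold nI cI
    have : (Finset.Icc x y).image s = ((Finset.Icc x y).image fun i => cell b (vx oo up t i)).image
        (fun z => if dir then z.2 else z.1) := by
      rw [Finset.image_image]
      apply Finset.image_congr
      intro i _
      rw [hs]
      cases dir <;> rfl
    rw [this]
    exact card_image_le
  have h4 : |s j - s i| + 1 ≤ nI b t x y := h2.trans (by exact_mod_cast h3)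
  have h5 : |row dir (vx oo up t j) - row dir (vx oo up t i)| < 2 ^ b * (|s j - s i| + 1) := by
    have e1 := Int.emod_add_mul_ediv (row dir (vx oo up t j)) (2 ^ b)
    have e2 := Int.emod_add_mul_ediv (row dir (vx oo up t i)) (2 ^ b)
    have e3 := Int.emod_nonneg (row dir (vx oo up t j)) hp.ne'
    have e4 := Int.emod_lt_of_pos (row dir (vx oo up t j)) hp
    have e5 := Int.emod_nonneg (row dir (vx oo up t i)) hp.ne'
    have e6 := Int.emod_lt_of_pos (row dir (vx oo up t i)) hp
    have e7 : row dir (vx oo up t j) - row dir (vx oo up t i) = 2 ^ b * (s j - s i) +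
        (row dir (vx oo up t j) % 2 ^ b - row dir (vx oo up t i) % 2 ^ b) := by
      rw [hs]
      simp only
      linarith
    rw [e7, abs_lt]
    have e8 := abs_le.1 (le_refl |s j - s i|)
    constructor <;> nlinarith
  have h6 : |lvl dir (vx oo up t j) - lvl dir (vx oo up t i)| ≤ 3 * (|row dir (vx oo up t j) - row dir (vx oo up t i)| + 1) := by
    have e9 : ∀ a c : ℤ, |a - c| ≤ 3 * (|a / 3 - c / 3| + 1) := by
      intro a c
      rcases abs_cases (a - c) with h | h <;> rcases abs_cases (a / 3 - c / 3) with h' | h' <;> omega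
    exact e9 _ _
  calc |lvl dir (vx oo up t j) - lvl dir (vx oo up t i)|
      ≤ 3 * (|row dir (vx oo up t j) - row dir (vx oo up t i)| + 1) := h6
    _ ≤ 3 * (2 ^ b * (|s j - s i| + 1)) := by linarith
    _ ≤ 3 * (2 ^ b * nI b t x y) := by
        have := mul_le_mul_of_nonneg_left h4 hp.le
        linarith
    _ = _ := by ring

end NC

end HexObs
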