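import Pool.Agent.NTA.RunCrd

/-!
NC (natural content): the runs with many leaves, few block pairs of caps and few doublings are a class of runs of small
norm; the number of doublings per leaf is bounded by an absolute constant, the box is arbitrary.
-/

set_option autoImplicit false

namespace HexObs

namespace NC

open Finset TS SDN NTW NTA

open scoped ENNReal

/-- the crowded runs with few doublings -/
def CrdT (kc mu w0 Λ n m : ℕ) : Set (List (List Bool)) :=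
  {gs | gs ∈ CS (2 ^ (kc + 4)) (2 ^ (kc + 5 + mu)) (kc + 2) (2 ^ (kc - w0)) n m ∧ dbl (2 ^ (kc + 4)) gs ≤ Λ * m}

namespace CrT

open Classical in
/-- the run functional of a crowded class -/
lemma runF_le {kc mu w0 Λ n m : ℕ} {Φ F : List Bool → ℝ≥0∞} (hF : ∀ g ∈ HB (2 ^ (kc + 4)),
      ∑' ms : {ms : List (List Bool) // (g :: ms) ∈ CS (2 ^ (kc + 4)) (2 ^ (kc + 5 + mu)) (kc + 2) (2 ^ (kc - w0)) n m ∧
        dbl (2 ^ (kc + 4)) (g :: ms) ≤ Λ * m}, SDN.wl ms.1 * Φ (ms.1.getLastD g) ≤ F g) {g : List Bool}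
    (hg : g ∈ HB (2 ^ (kc + 4))) :
    runF (CrdT kc mu w0 Λ n m) Φ g ≤ if g ∈ BrR (2 ^ (kc + 4)) (2 ^ (kc + 5 + mu)) then F g else 0 := by
  have hmem : ∀ ms : List (List Bool), (g :: ms) ∈ CrdT kc mu w0 Λ n m → g ∈ BrR (2 ^ (kc + 4)) (2 ^ (kc + 5 + mu)) :=
    fun ms h => h.1.2.2.1 g List.mem_cons_self
  split_ifs with h0
  · refine le_trans ?_ (hF g hg)
    unfold runF
    refine le_trans ?_ (le_of_eq (tsum_subtype {ms : List (List Bool) | (g :: ms) ∈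
        CS (2 ^ (kc + 4)) (2 ^ (kc + 5 + mu)) (kc + 2) (2 ^ (kc - w0)) n m ∧
        dbl (2 ^ (kc + 4)) (g :: ms) ≤ Λ * m} (fun ms => SDN.wl ms * Φ (ms.getLastD g))).symm)
    refine ENNReal.tsum_le_tsum fun ms => ?_
    by_cases h1 : (g :: ms) ∈ CrdT kc mu w0 Λ n m ∧ (g :: ms).IsChain LFold
    · rw [if_pos h1, List.getLastD_cons, Set.indicator_of_mem]
      exact h1.1
    · rw [if_neg h1]
      exact zero_le
  · unfold runF
    refine le_of_eq (ENNReal.tsum_eq_zero.2 fun ms => ?_)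
    rw [if_neg]
    rintro ⟨h1, -⟩
    exact h0 (hmem ms h1)

end CrT

open CrT in
/-- **the crowded runs with few doublings are a class of runs of small norm** -/
theorem smR_crdT (Λ : ℕ) : ∃ (k0 w0 Q : ℕ) (C0 : ℝ), w0 ≤ k0 ∧ 2 ≤ Q ∧ 0 < C0 ∧ ∀ kc mu m n : ℕ, k0 ≤ kc → 4 ≤ m →
    2 * Q * (n + 1) ≤ m → SmR DmJ kc (CrdT kc mu w0 Λ n m) (C0 * 2 ^ mu / 4 ^ m) := by
  classical
  obtain ⟨C, δ0, hI⟩ := inp_exists
  have hA := ssA hI
  obtain ⟨k0, w0, Q, C1, hw, hQ, hC1, hcore⟩ := crowd_core hA ss3P Λ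
  obtain ⟨K2, hK2, h2⟩ := two2_of hA ssDP
  obtain ⟨K3, hK3, h3⟩ := nextD_of hI hA ss3P
  refine ⟨k0, w0, Q, (K2 + K3) * 2 ^ 5 * C1, hw, hQ, by positivity, fun kc mu m n hk hm hn => ?_⟩
  have hU := Ub_pos kc
  have hUN : UU (2 ^ (kc + 5 + mu)) ≤ 2 ^ (mu + 5) * Ub kc := by
    have := UU_ratio_up kc (mu + 5)
    rwa [show kc + (mu + 5) = kc + 5 + mu by ring] at this
  have hbox : 2 ^ (kc + 4) ≤ 2 ^ (kc + 5 + mu) := Nat.pow_le_pow_right (by norm_num) (by omega)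
  have hnum : ∀ (K a : ℝ), 1 ≤ K → K ≤ K2 + K3 → a ≤ 2 ^ (mu + 5) → 0 ≤ a →
      K * a * (C1 / 4 ^ m) ≤ (K2 + K3) * 2 ^ 5 * C1 * 2 ^ mu / 4 ^ m := by
    intro K a h4 h5 h6 h7
    rw [← mul_div_assoc]
    refine div_le_div_of_nonneg_right ?_ (by positivity)
    calc K * a * C1 ≤ (K2 + K3) * 2 ^ (mu + 5) * C1 := by gcongr
      _ = _ := by rw [pow_add]; ring
  refine ⟨fun x Φ hΦ => ?_, fun y x Ψ Φ hΨ hf hΦ => ?_⟩
  · obtain ⟨F, hFd, hF⟩ := hcore kc (2 ^ (kc + 5 + mu)) m n x Φ hk hm hn hΦ.dom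
    have h4 : ∀ t, vA (2 ^ (kc + 4)) (HB (2 ^ (kc + 4))) (runF (CrdT kc mu w0 Λ n m) Φ) t ≤
        vA (2 ^ (kc + 4)) (BrR (2 ^ (kc + 4)) (2 ^ (kc + 5 + mu))) F t := by
      intro t
      unfold vA
      rw [Rec8.sw_ind, Rec8.sw_ind]
      refine ENNReal.tsum_le_tsum fun g => ?_
      by_cases hg : g ∈ {g' | g' ∈ HB (2 ^ (kc + 4)) ∧ RT (2 ^ (kc + 4)) LFold t g'}
      · rw [if_pos hg]
        have h5 := runF_le (mu := mu) (w0 := w0) (Λ := Λ) (n := n) (m := m) hF hg.1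
        by_cases h0 : g ∈ BrR (2 ^ (kc + 4)) (2 ^ (kc + 5 + mu))
        · rw [if_pos (show g ∈ {g' | g' ∈ BrR (2 ^ (kc + 4)) (2 ^ (kc + 5 + mu)) ∧ RT (2 ^ (kc + 4)) LFold t g'} from
            ⟨h0, hg.2⟩)]
          rw [if_pos h0] at h5
          exact mul_le_mul_right h5 _
        · rw [if_neg h0, nonpos_iff_eq_zero] at h5
          rw [h5, mul_zero]
          exact zero_le
      · rw [if_neg hg]
        exact zero_le
    refine (xT_mono h4).trans ?_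
    refine (h3 (2 ^ (kc + 4)) kc kc (2 ^ (kc + 4)) (2 ^ (kc + 5 + mu)) _ F hFd le_rfl le_rfl le_rfl hbox).trans ?_
    rw [← mul_assoc, ← ENNReal.ofReal_mul (mul_nonneg (by linarith) (div_nonneg (Num2Aux.UU_pos _).le hU.le))]
    refine mul_le_mul_left (ENNReal.ofReal_le_ofReal ?_) _
    refine hnum K3 _ hK3 (by linarith) ?_ (div_nonneg (Num2Aux.UU_pos _).le hU.le)
    rwa [div_le_iff₀ hU]
  · obtain ⟨F, hFd, hF⟩ := hcore kc (2 ^ (kc + 5 + mu)) m n x Φ hk hm hn hΦ.dom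
    have h4 : Rec8.sw (HB (2 ^ (kc + 4))) (fun g => Ψ (rev g) * runF (CrdT kc mu w0 Λ n m) Φ g) ≤
        Rec8.sw (BrR (2 ^ (kc + 4)) (2 ^ (kc + 5 + mu))) (fun g => Ψ (rev g) * F g) := by
      rw [Rec8.sw_ind, Rec8.sw_ind]
      refine ENNReal.tsum_le_tsum fun g => ?_
      by_cases hg : g ∈ HB (2 ^ (kc + 4))
      · rw [if_pos hg]
        have h5 := runF_le (mu := mu) (w0 := w0) (Λ := Λ) (n := n) (m := m) hF hg
        by_cases h0 : g ∈ BrR (2 ^ (kc + 4)) (2 ^ (kc + 5 + mu))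
        · rw [if_pos h0] at h5 ⊢
          exact mul_le_mul_right (mul_le_mul_right h5 _) _
        · rw [if_neg h0, nonpos_iff_eq_zero] at h5
          rw [h5, mul_zero, mul_zero]
          exact zero_le
      · rw [if_neg hg]
        exact zero_le
    refine h4.trans ?_
    refine (h2 kc kc (2 ^ (kc + 4)) (2 ^ (kc + 5 + mu)) y _ Ψ F hΨ.dom hFd le_rfl le_rfl hbox).trans ?_
    have hC4 : 0 ≤ C1 / 4 ^ m := by positivity
    rw [mul_left_comm y, ← mul_assoc, ← ENNReal.ofReal_mul (mul_nonneg (by linarith) (Num2Aux.UU_pos _).le)]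
    refine mul_le_mul_left (ENNReal.ofReal_le_ofReal ?_) _
    calc K2 * UU (2 ^ (kc + 5 + mu)) * (C1 / 4 ^ m) ≤ K2 * (2 ^ (mu + 5) * Ub kc) * (C1 / 4 ^ m) := by gcongr
      _ = K2 * 2 ^ (mu + 5) * (C1 / 4 ^ m) * Ub kc := by ring
      _ ≤ _ := mul_le_mul_of_nonneg_right (hnum K2 _ hK2 (by linarith) le_rfl (by positivity)) hU.le

end NC

end HexObs
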