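import Pool.Agent.NTA.RunFun
import Pool.Agent.NTW.DmJ
import Pool.Agent.NTW.EventJ
import Pool.Agent.NTW.KernU
import Pool.Agent.SDN.CleanChain

/-!
NC (natural content): the runs of leaves without backtracks with a large sum of heights are a class of runs of small norm.
-/

set_option autoImplicit false

namespace HexObs

namespace NC

open Finset TS SDN SDN.CN NTW NTA

open scoped ENNReal

/-- the leaves without backtracks of a height in [n 2 ^ (k + s), (n + 1) 2 ^ (k + s)) are a class of small norm -/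
theorem clean_D : ∃ (K : ℝ) (s : ℕ), 1 ≤ K ∧ ∀ k n : ℕ,
    SmD DmJ k (CK (k + 5) (k + s) n ∩ HB (2 ^ (k + 4))) (K / 4 ^ n) := by
  obtain ⟨C, δ, hI⟩ := inp_exists
  have hA := ssA hI
  obtain ⟨Ka, hKa, h⟩ := clean_XY
  obtain ⟨K1, hK1, h1⟩ := DmJ_dx hI hA ss3P
  obtain ⟨K2, hK2, h2⟩ := DmJ_qx hI hA ssDP
  obtain ⟨K3, hK3, h3⟩ := DmJ_pair hA ssDP
  obtain ⟨K0, hK0⟩ : ∃ K0, K0 = Ka + K1 + K2 + K3 := ⟨_, rfl⟩
  obtain ⟨K, s, hK, -, hXY⟩ := h K0 (by linarith)
  refine ⟨K, s, hK, fun k n => ⟨fun x Φ hΦ => ?_, fun y x Ψ Φ hΨ hf hΦ => ?_⟩⟩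
  · have hx : DX K0 K0 (2 ^ (k + 4)) Φ x := (h1 k x Φ hΦ).le (by linarith) (by linarith)
    have hq0 : GX.QX K0 (2 ^ (k + 4)) (fun _ => 0) 0 := by
      refine ⟨?_, ?_, ?_⟩
      · intros
        exact le_rfl
      · intros
        exact le_rfl
      · intros
        simp [Rec8.sw_zero]
    refine (hXY k n Φ (fun _ => 0) x 0 hx hq0 fun N => ?_).1
    simp [Rec8.sw_zero]
  · have hx : DX K0 K0 (2 ^ (k + 4)) Φ x := (h1 k x Φ hΦ).le (by linarith) (by linarith)
    have hq : GX.QX K0 (2 ^ (k + 4)) (fun g => Ψ (rev g)) y := QX_le (h2 k y Ψ hΨ hf) (by linarith)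
    refine ((hXY k n Φ (fun g => Ψ (rev g)) x y hx hq fun N => ?_).2).trans (le_of_eq ?_)
    · refine (h3 k x y Ψ Φ hΨ hΦ N).trans (mul_le_mul_left (ENNReal.ofReal_le_ofReal ?_) _)
      exact mul_le_mul_of_nonneg_right (by linarith) (Num2Aux.UU_pos N).le
    · congr 2
      ring

/-- the runs of m leaves without backtracks, the sum of the heights (in units 2 ^ (k + s)) is at least V -/
def TvR (k s m V : ℕ) : Set (List (List Bool)) :=
  {gs | gs.length = m ∧ (∀ g ∈ gs, g ∈ CL (k + 5) ∧ g ∈ HB (2 ^ (k + 4))) ∧ V ≤ (gs.map fun g => hgt g / 2 ^ (k + s)).sum}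

/-- the same in a box -/
def TvB (k mu s m V : ℕ) : Set (List (List Bool)) :=
  {gs | gs ∈ TvR k s m V ∧ ∀ g ∈ gs, g ∈ BrR (2 ^ (k + 4)) (2 ^ (k + 5 + mu))}

namespace TvA

open CCh

/-- the sum over the next n leaves, with the exponential moment, then the functional Φ of the last leaf -/
noncomputable def FG (Φ : List Bool → ℝ≥0∞) (k s : ℕ) : ℕ → List Bool → ℝ≥0∞
  | 0 => Φ
  | n + 1 => fun t => ∑' j : ℕ, 2 ^ j * vA (2 ^ (k + 4)) (CK (k + 5) (k + s) j ∩ HB (2 ^ (k + 4))) (FG Φ k s n) t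

lemma FG_her (Φ : List Bool → ℝ≥0∞) (k s n : ℕ) : HerD (2 ^ (k + 4)) (FG Φ k s (n + 1)) := by
  constructor
  · intro a ha t
    exact ENNReal.tsum_le_tsum fun j => mul_le_mul_right (CN.hered_vA _ _ _ a ha t) _
  · intro a t ht _
    exact ENNReal.tsum_le_tsum fun j => mul_le_mul_right (vA_suf (Nat.one_le_two_pow) _ _ ht) _

lemma Dm_FG {K : ℝ} {k s : ℕ} (hK : 1 ≤ K) (h : ∀ n : ℕ, SmD DmJ k (CK (k + 5) (k + s) n ∩ HB (2 ^ (k + 4))) (K / 4 ^ n))
    {x : ℝ≥0∞} {Φ : List Bool → ℝ≥0∞} (hΦ : DmJ k x Φ) (n : ℕ) :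
    DmJ k (ENNReal.ofReal ((2 * K) ^ n) * x) (FG Φ k s n) ∧
      xT (2 ^ (k + 4)) k (FG Φ k s (n + 1)) ≤ ENNReal.ofReal ((2 * K) ^ (n + 1)) * x := by
  induction n with
  | zero =>
    have h0 : DmJ k (ENNReal.ofReal ((2 * K) ^ 0) * x) (FG Φ k s 0) := by
      rw [pow_zero, ENNReal.ofReal_one, one_mul]
      exact hΦ
    refine ⟨h0, ?_⟩
    refine (xT_tsum _ _ _).trans ?_
    refine (ENNReal.tsum_le_tsum fun j => ((xT_smul _ _ _ _).trans (mul_le_mul_right ((h j).near x Φ hΦ) _))).trans ?_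
    simp only [← mul_assoc]
    rw [ENNReal.tsum_mul_right, geo K (by linarith), zero_add, pow_one]
  | succ n ih =>
    have h0 : DmJ k (ENNReal.ofReal ((2 * K) ^ (n + 1)) * x) (FG Φ k s (n + 1)) :=
      (DmJ_dm k _ (FG_her Φ k s n)).mono ih.2
    refine ⟨h0, ?_⟩
    refine (xT_tsum _ _ _).trans ?_
    refine (ENNReal.tsum_le_tsum fun j => ((xT_smul _ _ _ _).trans (mul_le_mul_right ((h j).near _ _ h0) _))).trans ?_
    simp only [← mul_assoc]
    rw [ENNReal.tsum_mul_right, ENNReal.tsum_mul_right, geo K (by linarith), ← ENNReal.ofReal_mul (by linarith)]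
    refine le_of_eq ?_
    congr 2
    rw [pow_succ (2 * K) (n + 1)]
    ring

open Classical in
/-- chains behind the leaf g -/
noncomputable def TG (Φ : List Bool → ℝ≥0∞) (k s n : ℕ) (g : List Bool) : ℝ≥0∞ :=
  ∑' gs : List (List Bool), if gs.length = n ∧ (g :: gs).IsChain LFold ∧ (∀ u ∈ gs, u ∈ Sg k) then
    wv k s gs * Φ (gs.getLastD g) else 0

lemma TG_le (Φ : List Bool → ℝ≥0∞) (k s n : ℕ) : ∀ g ∈ HB (2 ^ (k + 4)), TG Φ k s n g ≤ FG Φ k s n g := by
  classical
  induction n with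
  | zero =>
    intro g _
    unfold TG
    rw [tsum_eq_single []]
    · split_ifs
      · simp [wv, FG]
      · exact zero_le
    · intro gs hgs
      rw [if_neg]
      rintro ⟨h, -⟩
      exact hgs (List.length_eq_zero_iff.1 h)
  | succ n ih =>
    intro g hg
    have h1 : TG Φ k s (n + 1) g ≤ Rec8.sw {g' | g' ∈ Sg k ∧ RT (2 ^ (k + 4)) LFold g g'}
        (fun g' => 2 ^ (hgt g' / 2 ^ (k + s)) * FG Φ k s n g') := by
      unfold TG
      refine (tsum_list _ ?_).trans ?_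
      · rw [if_neg]
        rintro ⟨h, -⟩
        simp at h
      · rw [Rec8.sw_ind]
        refine ENNReal.tsum_le_tsum fun g' => ?_
        by_cases h2 : g' ∈ Sg k ∧ LFold g g'
        · have h3 : g' ∈ {g' | g' ∈ Sg k ∧ RT (2 ^ (k + 4)) LFold g g'} := ⟨h2.1, RT_of hg h2.2⟩
          rw [if_pos h3]
          have h4 : wE g' * (2 ^ (hgt g' / 2 ^ (k + s)) * FG Φ k s n g') = w1 k s g' * FG Φ k s n g' := by
            unfold w1
            ring
          rw [h4]
          refine le_trans ?_ (mul_le_mul_right (ih g' h2.1.2) _)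
          unfold TG
          rw [← ENNReal.tsum_mul_left]
          refine ENNReal.tsum_le_tsum fun gs => ?_
          by_cases h5 : (g' :: gs).length = n + 1 ∧ (g :: g' :: gs).IsChain LFold ∧ ∀ u ∈ g' :: gs, u ∈ Sg k
          · rw [if_pos h5, if_pos]
            · unfold wv
              rw [List.map_cons, List.prod_cons, List.getLastD_cons, mul_assoc]
            · refine ⟨?_, ?_, ?_⟩
              · have := h5.1
                rw [List.length_cons] at this
                omega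
              · exact (List.isChain_cons_cons.1 h5.2.1).2
              · exact fun u hu => h5.2.2 u (List.mem_cons_of_mem _ hu)
          · rw [if_neg h5]
            exact zero_le
        · have h3 : ∀ gs : List (List Bool), (if (g' :: gs).length = n + 1 ∧ (g :: g' :: gs).IsChain LFold ∧
              (∀ u ∈ g' :: gs, u ∈ Sg k) then wv k s (g' :: gs) * Φ ((g' :: gs).getLastD g) else 0) = 0 := by
            intro gs
            rw [if_neg]
            rintro ⟨-, h4, h5⟩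
            exact h2 ⟨h5 g' List.mem_cons_self, (List.isChain_cons_cons.1 h4).1⟩
          rw [tsum_congr h3, tsum_zero]
          exact zero_le
    refine h1.trans ?_
    exact sum_leaf k s (fun g' => RT (2 ^ (k + 4)) LFold g g') (FG Φ k s n)
      (fun j => vA (2 ^ (k + 4)) (CK (k + 5) (k + s) j ∩ HB (2 ^ (k + 4))) (FG Φ k s n) g) (fun j => le_rfl)

lemma wv_eq (k s : ℕ) (gs : List (List Bool)) :
    wv k s gs = SDN.wl gs * 2 ^ ((gs.map fun g => hgt g / 2 ^ (k + s)).sum) := by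
  induction gs with
  | nil => simp [wv, SDN.wl]
  | cons g gs ih =>
    unfold wv SDN.wl at ih ⊢
    rw [List.map_cons, List.prod_cons, List.map_cons, List.prod_cons, List.map_cons, List.sum_cons, ih,
      pow_add _ (hgt g / 2 ^ (k + s))]
    unfold w1
    rw [mul_mul_mul_comm]

open Classical in
/-- the run functional -/
lemma runF_le {k s n V : ℕ} (Φ : List Bool → ℝ≥0∞) (g : List Bool) : 2 ^ V * runF (TvR k s (n + 1) V) Φ g ≤
    if g ∈ Sg k then 2 ^ (hgt g / 2 ^ (k + s)) * TG Φ k s n g else 0 := by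
  by_cases hg : g ∈ Sg k
  · rw [if_pos hg]
    unfold runF TG
    rw [← ENNReal.tsum_mul_left, ← ENNReal.tsum_mul_left]
    refine ENNReal.tsum_le_tsum fun ms => ?_
    by_cases h1 : (g :: ms) ∈ TvR k s (n + 1) V ∧ (g :: ms).IsChain LFold
    · obtain ⟨⟨a1, a2, a3⟩, a4⟩ := h1
      rw [if_pos ⟨⟨a1, a2, a3⟩, a4⟩, if_pos ⟨by rw [List.length_cons] at a1; omega, a4,
        fun u hu => a2 u (List.mem_cons_of_mem _ hu)⟩, List.getLastD_cons, wv_eq]
      rw [List.map_cons, List.sum_cons] at a3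
      have h2 : (2 : ℝ≥0∞) ^ V ≤ 2 ^ (hgt g / 2 ^ (k + s)) * 2 ^ (ms.map fun g => hgt g / 2 ^ (k + s)).sum := by
        rw [← pow_add]
        exact pow_le_pow_right₀ (by norm_num) a3
      calc (2 : ℝ≥0∞) ^ V * (SDN.wl ms * Φ (ms.getLastD g))
          ≤ (2 ^ (hgt g / 2 ^ (k + s)) * 2 ^ (ms.map fun g => hgt g / 2 ^ (k + s)).sum) *
            (SDN.wl ms * Φ (ms.getLastD g)) := mul_le_mul_left h2 _
        _ = _ := by ring
    · rw [if_neg h1, mul_zero]
      exact zero_le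
  · rw [if_neg hg]
    unfold runF
    refine le_of_eq ?_
    rw [ENNReal.tsum_eq_zero.2, mul_zero]
    intro ms
    rw [if_neg]
    rintro ⟨⟨-, a2, -⟩, -⟩
    exact hg (a2 g List.mem_cons_self)

end TvA

open TvA CCh in
/-- **the runs with a large total variation are a class of runs of small norm** -/
theorem smR_tv : ∃ (K : ℝ) (s : ℕ), 1 ≤ K ∧ ∀ k m V : ℕ, 1 ≤ m → SmR DmJ k (TvR k s m V) (K ^ m / 2 ^ V) := by
  classical
  obtain ⟨K, s, hK, h⟩ := clean_D
  refine ⟨2 * K, s, by linarith, fun k m V hm => ?_⟩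
  obtain ⟨n, rfl⟩ : ∃ n, m = n + 1 := ⟨m - 1, by omega⟩
  have hUk := (Ub_pos k).le
  obtain ⟨c, hc⟩ : ∃ c : ℝ≥0∞, c = ENNReal.ofReal (1 / 2 ^ V) := ⟨_, rfl⟩
  have e2 : c * (2 : ℝ≥0∞) ^ V = 1 := by
    have : (2 : ℝ≥0∞) ^ V = ENNReal.ofReal (2 ^ V) := by
      rw [ENNReal.ofReal_pow (by norm_num)]
      congr 1
      norm_num
    rw [this, hc, ← ENNReal.ofReal_mul (by positivity), one_div, inv_mul_cancel₀ (by positivity), ENNReal.ofReal_one]
  have hrun : ∀ (Φ : List Bool → ℝ≥0∞) (g : List Bool), runF (TvR k s (n + 1) V) Φ g ≤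
      c * (if g ∈ Sg k then 2 ^ (hgt g / 2 ^ (k + s)) * FG Φ k s n g else 0) := by
    intro Φ g
    calc runF (TvR k s (n + 1) V) Φ g = c * (2 ^ V * runF (TvR k s (n + 1) V) Φ g) := by
          rw [← mul_assoc, e2, one_mul]
      _ ≤ c * (if g ∈ Sg k then 2 ^ (hgt g / 2 ^ (k + s)) * TG Φ k s n g else 0) := mul_le_mul_right (runF_le Φ g) _
      _ ≤ _ := by
          refine mul_le_mul_right ?_ _
          by_cases hg : g ∈ Sg k
          · rw [if_pos hg, if_pos hg]
            exact mul_le_mul_right (TG_le Φ k s n g hg.2) _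
          · rw [if_neg hg, if_neg hg]
  refine ⟨fun x Φ hΦ => ?_, fun y x Ψ Φ hΨ hf hΦ => ?_⟩
  · obtain ⟨-, h1⟩ := Dm_FG hK (h k) hΦ n
    have h4 : ∀ t, vA (2 ^ (k + 4)) (HB (2 ^ (k + 4))) (runF (TvR k s (n + 1) V) Φ) t ≤ c * FG Φ k s (n + 1) t := by
      intro t
      have h5 : vA (2 ^ (k + 4)) (HB (2 ^ (k + 4))) (runF (TvR k s (n + 1) V) Φ) t ≤
          c * Rec8.sw {g | g ∈ Sg k ∧ RT (2 ^ (k + 4)) LFold t g} (fun g => 2 ^ (hgt g / 2 ^ (k + s)) * FG Φ k s n g) := by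
        unfold vA
        rw [← Rec8.sw_mul_left, Rec8.sw_ind, Rec8.sw_ind]
        refine ENNReal.tsum_le_tsum fun g => ?_
        by_cases hg : g ∈ {g' | g' ∈ HB (2 ^ (k + 4)) ∧ RT (2 ^ (k + 4)) LFold t g'}
        · rw [if_pos hg]
          have h6 := hrun Φ g
          by_cases h0 : g ∈ Sg k
          · rw [if_pos (show g ∈ {g | g ∈ Sg k ∧ RT (2 ^ (k + 4)) LFold t g} from ⟨h0, hg.2⟩)]
            rw [if_pos h0] at h6
            exact mul_le_mul_right h6 _
          · rw [if_neg h0, mul_zero, nonpos_iff_eq_zero] at h6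
            rw [h6, mul_zero]
            exact zero_le
        · rw [if_neg hg]
          exact zero_le
      refine h5.trans (mul_le_mul_right ?_ _)
      exact sum_leaf k s (fun g => RT (2 ^ (k + 4)) LFold t g) (FG Φ k s n)
        (fun j => vA (2 ^ (k + 4)) (CK (k + 5) (k + s) j ∩ HB (2 ^ (k + 4))) (FG Φ k s n) t) (fun j => le_rfl)
    refine (xT_mono h4).trans ((SDN.xT_smul _ _ _ _).trans ((mul_le_mul_right h1 _).trans (le_of_eq ?_)))
    rw [hc, ← mul_assoc, ← ENNReal.ofReal_mul (by positivity)]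
    congr 2
    ring
  · obtain ⟨h1, -⟩ := Dm_FG hK (h k) hΦ n
    have h4 : Rec8.sw (HB (2 ^ (k + 4))) (fun g => Ψ (rev g) * runF (TvR k s (n + 1) V) Φ g) ≤
        c * Rec8.sw {g | g ∈ Sg k ∧ True} (fun g => 2 ^ (hgt g / 2 ^ (k + s)) * (Ψ (rev g) * FG Φ k s n g)) := by
      rw [← Rec8.sw_mul_left, Rec8.sw_ind, Rec8.sw_ind]
      refine ENNReal.tsum_le_tsum fun g => ?_
      by_cases hg : g ∈ HB (2 ^ (k + 4))
      · rw [if_pos hg]
        have h6 := hrun Φ g
        by_cases h0 : g ∈ Sg k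
        · rw [if_pos (show g ∈ {g | g ∈ Sg k ∧ True} from ⟨h0, trivial⟩)]
          rw [if_pos h0] at h6
          refine mul_le_mul_right ?_ _
          calc Ψ (rev g) * runF (TvR k s (n + 1) V) Φ g ≤ Ψ (rev g) * (c * (2 ^ (hgt g / 2 ^ (k + s)) * FG Φ k s n g)) :=
                mul_le_mul_right h6 _
            _ = _ := by ring
        · rw [if_neg h0, mul_zero, nonpos_iff_eq_zero] at h6
          rw [h6, mul_zero, mul_zero]
          exact zero_le
      · rw [if_neg hg]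
        exact zero_le
    refine h4.trans ?_
    have h5 := sum_leaf k s (fun _ => True) (fun g => Ψ (rev g) * FG Φ k s n g)
      (fun j => ENNReal.ofReal (K * Ub k / 4 ^ j) * (y * (ENNReal.ofReal ((2 * K) ^ n) * x))) (fun j => by
        refine (Rec8.sw_mono (fun g hg => hg.1) fun _ _ => le_rfl).trans (((h k j).free y _ Ψ _ hΨ hf h1).trans
          (le_of_eq ?_))
        congr 2
        ring)
    refine (mul_le_mul_right h5 _).trans ?_
    simp only [← mul_assoc]
    rw [ENNReal.tsum_mul_right, ENNReal.tsum_mul_right, ENNReal.tsum_mul_right, geo (K * Ub k) (by positivity)]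
    refine le_of_eq ?_
    calc c * (ENNReal.ofReal (2 * (K * Ub k)) * y * ENNReal.ofReal ((2 * K) ^ n) * x)
        = (c * ENNReal.ofReal (2 * (K * Ub k)) * ENNReal.ofReal ((2 * K) ^ n)) * (y * x) := by ring
      _ = _ := by
          rw [hc, ← ENNReal.ofReal_mul (by positivity), ← ENNReal.ofReal_mul (by positivity), mul_assoc _ y x]
          congr 2
          rw [pow_succ]
          ring

end NC

end HexObs
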