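import Pool.Agent.NTA.StepA
import Pool.Agent.SDN.BridgeCl
import Pool.Agent.NC.CellI
import Pool.Agent.NC.CrdRun
import Pool.Agent.NC.TvRun

/-!
NC (natural content): the run of the interior leaves of a time interval: heights, no backtracks, few cells.
-/

set_option autoImplicit false

namespace HexObs

namespace NC

open Finset TS SDN NTW NTA

open scoped ENNReal

variable {dir : Bool} {b m u : ℕ} {t : List Bool} {e : ℕ → ℕ}

/-- the interior leaves: no backtracks, heights, levels -/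
lemma int_leafD (ht : t ∈ SA) (hb : 1 ≤ b) (h : Lf dir b t m u e) {j : ℕ} (h1 : 1 ≤ j) (h2 : j + 2 ≤ m) :
    ∃ k : ℕ, lw t (e j) (e (j + 1)) ∈ Brd k ∧ 2 ^ b - 1 ≤ k ∧ lw t (e j) (e (j + 1)) ∈ CL b ∧
      |lvl dir (vx oo up t (e (j + 1))) - lvl dir (vx oo up t (e j))| = 3 * k + 1 := by
  obtain ⟨c, M, r1, r2, r3, r4, r5, r6, r7, r8, r9, -⟩ := leaf_at ht hb h h1 h2
  obtain ⟨k, k1, k2, k3⟩ := lw_brd ht hb h h1 h2
  have hkM : k = M := by rw [← hgt_eq k1, hgt_eq r6]
  subst hkM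
  have hlev : ∀ i, i ≤ (lw t (e j) (e (j + 1))).length →
      lev (lw t (e j) (e (j + 1))) i = xD (dD dir (u + j)) t (e j + 1 + i) - xD (dD dir (u + j)) t (e j + 1) := by
    intro i hi
    have e1 : xD (dD dir (u + j)) t (e j + 1 + i) = xD (dD dir (u + j)) t (e j + 1) +
        ip (mulE c (vx oo up (t.drop (e j + 1)) i)) (dD dir (u + j)) := by
      unfold xD
      rw [r8, ip_add_left]
    have e2 : ip (mulE c (vx oo up (t.drop (e j + 1)) i)) (dD dir (u + j)) =
        lev (lw t (e j) (e (j + 1))) i := by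
      rw [← r2, ip_mulE, mem_dirs.1 r1, one_mul, ← r9 i hi]
      rfl
    rw [e1, e2]
    ring
  refine ⟨k, k1, k2, ?_, k3⟩
  intro i i' i1 i2
  rw [hlev i (by omega), hlev i' i2]
  have h8 := h.small j (by omega) (e j + 1 + i) (e j + 1 + i') (by omega) (by omega) (by omega)
  rw [← xD_dD, ← xD_dD] at h8
  omega

lemma lws_mem {l d : ℕ} {g : List Bool} (hg : g ∈ lws t e l d) : ∃ i, i < d ∧ g = lw t (e (l + i)) (e (l + i + 1)) := by
  unfold lws at hg
  rw [List.mem_map] at hg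
  obtain ⟨i, hi, rfl⟩ := hg
  rw [List.mem_range] at hi
  exact ⟨i, hi, rfl⟩

/-- the run of interior leaves in TvR -/
lemma run_tv {k s l d V : ℕ} (ht : t ∈ SA) (h : Lf dir (k + 5) t m u e) (h1 : 1 ≤ l) (h2 : l + d + 1 ≤ m)
    (hV : V ≤ ((lws t e l d).map fun g => hgt g / 2 ^ (k + s)).sum) : lws t e l d ∈ TvR k s d V := by
  refine ⟨PE.lws_length _ _ _ _, ?_, hV⟩
  intro g hg
  obtain ⟨i, hi, rfl⟩ := lws_mem hg
  obtain ⟨n, n1, n2, n3, -⟩ := int_leafD ht (by omega : 1 ≤ k + 5) h (j := l + i) (by omega) (by omega)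
  refine ⟨n3, n, ?_, n1⟩
  have h5 : 2 ^ (k + 5) = 2 * 2 ^ (k + 4) := by rw [← pow_succ']
  have h6 := Nat.one_le_two_pow (n := k + 4)
  omega

lemma log_le (k s h : ℕ) : Nat.log 2 (h / 2 ^ (k + 4)) ≤ h / 2 ^ (k + s) + s := by
  obtain ⟨q, hq⟩ : ∃ q, q = h / 2 ^ (k + s) := ⟨_, rfl⟩
  obtain ⟨a, ha⟩ : ∃ a, a = h / 2 ^ (k + 4) := ⟨_, rfl⟩
  rw [← hq, ← ha]
  rcases Nat.eq_zero_or_pos a with h0 | h0
  · rw [h0]
    simp
  have h1 : a * 2 ^ (k + 4) ≤ h := by
    rw [ha]
    exact Nat.div_mul_le_self _ _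
  have h2 : h < (q + 1) * 2 ^ (k + s) := by
    rw [hq, mul_comm]
    exact Nat.lt_mul_div_succ h (by positivity)
  have h3 : a * 2 ^ (k + 4) < (2 ^ q * 2 ^ s) * 2 ^ (k + 4) := by
    calc a * 2 ^ (k + 4) < (q + 1) * 2 ^ (k + s) := lt_of_le_of_lt h1 h2
      _ ≤ 2 ^ q * 2 ^ (k + s) := Nat.mul_le_mul_right _ (Nat.lt_two_pow_self)
      _ = (2 ^ q * 2 ^ s) * 2 ^ k := by rw [pow_add]; ring
      _ ≤ _ := Nat.mul_le_mul_left _ (Nat.pow_le_pow_right (by norm_num) (by omega))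
  have h4 : a < 2 ^ (q + s) := by
    rw [pow_add]
    exact lt_of_mul_lt_mul_right h3 (Nat.zero_le _)
  exact (Nat.log_lt_of_lt_pow (by omega) h4).le

lemma dbl_le (k s : ℕ) (gs : List (List Bool)) :
    dbl (2 ^ (k + 4)) gs ≤ (gs.map fun g => hgt g / 2 ^ (k + s)).sum + s * gs.length := by
  unfold dbl
  induction gs with
  | nil => simp
  | cons g gs ih =>
    simp only [List.map_cons, List.sum_cons, List.length_cons]
    have := log_le k s (hgt g)
    calc _ ≤ (hgt g / 2 ^ (k + s) + s) + ((gs.map fun g => hgt g / 2 ^ (k + s)).sum + s * gs.length) :=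
          Nat.add_le_add this ih
      _ = _ := by ring

/-- **a run of interior leaves between the times x, y is in CS** -/
theorem run_csI : ∃ Cc : ℕ, 1 ≤ Cc ∧ ∀ (dir : Bool) (k w0 mu m u l d n x y : ℕ) (t : List Bool) (e : ℕ → ℕ), t ∈ SA →
    w0 ≤ k → Lf dir (k + 5) t m u e → Bx (k + 5 + mu) t x y → x ≤ e l → e (l + d) ≤ y → 1 ≤ l → l + d + 1 ≤ m → 6 ≤ d →
    Cc * 2 ^ w0 * nI (k + 5) t x y ≤ n →
    lws t e l d ∈ CS (2 ^ (k + 4)) (2 ^ (k + 5 + mu)) (k + 2) (2 ^ (k - w0)) n d := by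
  obtain ⟨C, hC⟩ := caps_card
  refine ⟨16 * C + 1, by omega, fun dir k w0 mu m u l d n x y t e ht hw0 hlf hbx hx hy hl hm hd hn => ?_⟩
  have h := hlf
  unfold Lf at h
  obtain ⟨J, hJ⟩ : ∃ J, J = 2 * ((d - 4) / 2) := ⟨_, rfl⟩
  have hJ1 : 1 ≤ J := by omega
  have hmono : ∀ i j, i ≤ j → j ≤ m → e i ≤ e j := fun i j hij hj => lf_mono hlf hij hj
  -- the heights
  have hBr := run_box ht hlf hbx hx hy hl hm
  have hmid : ((lws t e l d).drop 1).take J = lws t e (l + 1) J := by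
    apply List.ext_getElem
    · rw [PE.lws_length, List.length_take, List.length_drop, PE.lws_length]
      omega
    · intro i h1 h2
      rw [PE.lws_length] at h2
      rw [List.getElem_take, List.getElem_drop]
      unfold lws
      rw [List.getElem_map, List.getElem_range, List.getElem_map, List.getElem_range]
      congr 2
      · ring
      · ring
  obtain ⟨w1, w2, w3⟩ := lws_word ht (by omega : 1 ≤ k + 5) hlf (j := l + 1) (n := J) (by omega) hJ1 (by omega)
  obtain ⟨v1, v2, v3⟩ := lws_word ht (by omega : 1 ≤ k + 5) hlf (j := l) (n := d) hl (by omega) (by omega)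
  have hle1 : e (l + 1) ≤ t.length := lf_le hlf (by omega)
  have hle2 : e (l + 1 + J) ≤ t.length := lf_le hlf (by omega)
  have hlt1 : e (l + 1) < e (l + 1 + J) := by
    have a1 := h.lt (l + 1) (by omega)
    have a2 := hmono (l + 1 + 1) (l + 1 + J) (by omega) (by omega)
    omega
  have hlt2 : e (l + 1) + 2 ≤ e (l + 1 + J) := by
    have a1 := h.lt (l + 1) (by omega)
    have a2 := h.lt (l + 1 + 1) (by omega)
    have a3 := hmono (l + 1 + 1 + 1) (l + 1 + J) (by omega) (by omega)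
    omega
  obtain ⟨q, hq⟩ : ∃ q, q = (unf (lws t e (l + 1) J)).dropLast := ⟨_, rfl⟩
  rw [← hq] at w1
  have hqlen : q.length + 1 + 1 + e (l + 1) = e (l + 1 + J) := by
    have := congrArg List.length w1
    rw [List.length_append, List.length_append, List.length_take, List.length_drop] at this
    omega
  have hqt : q = (t.drop (e (l + 1) + 1)).take (e (l + 1 + J) - 1 - (e (l + 1) + 1)) := by
    have htk : (t.take (e (l + 1) + 1)).length = e (l + 1) + 1 := by
      rw [List.length_take]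
      omega
    conv_rhs => rw [w1]
    rw [List.drop_left' htk, List.take_append_of_le_length (by omega), List.take_of_length_le (by omega)]
  have hqs : q ∈ SA := by
    rw [hqt]
    exact SA_take (SA_drop ht _) _
  have hHB : ∀ g ∈ lws t e (l + 1) J, g ∈ HB (2 ^ (k + 4)) := by
    intro g hg
    rw [← hmid] at hg
    obtain ⟨x, x1, _, x3⟩ := hBr g (List.mem_of_mem_drop (List.mem_of_mem_take hg))
    exact ⟨x, x1, x3⟩
  have hq2 : q = (unf (lws t e (l + 1) J)).dropLast ++ [] := by rw [List.append_nil, hq]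
  obtain ⟨c1, c2⟩ := caps_nc (k := k) (w := 2 ^ (k - w0)) Nat.one_le_two_pow hqs hq2 hHB
    (by rw [PE.lws_length, hJ]; exact ⟨(d - 4) / 2, by ring⟩)
  have hcard := hC k (k - w0) q (caps (k + 2) (2 ^ (k - w0)) 0 0 (lws t e (l + 1) J)).toFinset (by omega) c1 (by
    intro x hx
    rw [List.mem_toFinset] at hx
    obtain ⟨i, j, hij, hj, l1, l2, l3, l4⟩ := c2 x hx
    refine ⟨i, j, by omega, hj, l1, l2, l3, ?_⟩
    rw [l4]
    push_cast
    rfl)
  refine ⟨PE.lws_length _ _ _ _, v2, hBr, ?_, ?_⟩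
  · rw [← hJ, hmid]
    exact c1
  · rw [← hJ, hmid]
    refine hcard.trans (le_trans ?_ hn)
    have h1 : nb (k + 5) q ≤ 16 * nI (k + 5) t x y := by
      rw [hqt]
      have a1 := hmono l (l + 1) (by omega) (by omega)
      have a2 := hmono (l + 1 + J) (l + d) (by omega) (by omega)
      exact nb_infix (by omega) (by omega) (by omega)
    have h2 : k - (k - w0) = w0 := by omega
    rw [h2]
    calc C * 2 ^ w0 * nb (k + 5) q ≤ C * 2 ^ w0 * (16 * nI (k + 5) t x y) := by gcongr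
      _ = 16 * C * 2 ^ w0 * nI (k + 5) t x y := by ring
      _ ≤ (16 * C + 1) * 2 ^ w0 * nI (k + 5) t x y := by gcongr; omega

end NC

end HexObs
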