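import Pool.Agent.NC.Defs
import Pool.Agent.EN.MarkX
import Pool.Agent.EN.CrowdX

/-!
NC (natural content): the exact norms of the two classes of bad runs. A half of a bad run is a bad run, the J0 + 1 leaves
before or after it are free.
-/

set_option autoImplicit false

namespace HexObs

namespace NC

open Finset TS SDN NTW NTA EN

open scoped ENNReal

namespace NX

/-- numbers -/
lemma num_pow {K C : ℝ} {mu j : ℕ} (hK : 1 ≤ K) (hC : 1 ≤ C) :
    (4 * (K * 2 ^ (mu + 3))) ^ j * C ^ (mu + 3 + 1) ≤ ((32 * K) ^ j * C ^ 4) ^ (mu + 1) := by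
  have e1 : (4 * (K * 2 ^ (mu + 3))) ^ j ≤ ((32 * K) ^ j) ^ (mu + 1) := by
    rw [← pow_mul, mul_comm j (mu + 1), pow_mul]
    refine pow_le_pow_left₀ (by positivity) ?_ _
    rw [pow_succ (32 * K) mu, pow_add]
    have h5 : (2 : ℝ) ^ mu ≤ (32 * K) ^ mu := pow_le_pow_left₀ (by norm_num) (by linarith) mu
    have h6 : (0 : ℝ) < 2 ^ mu := by positivity
    nlinarith
  have e2 : C ^ (mu + 3 + 1) ≤ (C ^ 4) ^ (mu + 1) := by
    rw [← pow_mul]
    exact pow_le_pow_right₀ hC (by omega)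
  rw [mul_pow ((32 * K) ^ j) (C ^ 4) (mu + 1)]
  exact mul_le_mul e1 e2 (by positivity) (by positivity)

/-- the sum of the heights of a run of d + j leaves is at most the one without the last j and the one without the
first j leaves -/
lemma sum_split {f : List Bool → ℕ} {gs : List (List Bool)} {d j : ℕ} (hj : j ≤ d) :
    (gs.map f).sum ≤ ((gs.take d).map f).sum + ((gs.drop j).map f).sum := by
  have h1 : (gs.map f).sum = ((gs.take d).map f).sum + ((gs.drop d).map f).sum := by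
    conv_lhs => rw [← List.take_append_drop d gs, List.map_append, List.sum_append]
  have h2 : ((gs.drop d).map f).sum ≤ ((gs.drop j).map f).sum := by
    apply List.Sublist.sum_le_sum
    · exact (List.drop_sublist_drop_left gs hj).map f
    · intro a _
      exact Nat.zero_le a
  omega

end NX

open NX in
/-- **the exact norms of the bad runs** -/
theorem ncR_x {m : ℕ → ℝ} (hm : ∀ k, 0 < m k) {J0 : ℕ} (hGB : GBm m J0) :
    NcR (fun kc R δ => SmRX DmJ kc R (δ / m kc)) := by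
  obtain ⟨C, k1, hC, hGB⟩ := hGB
  obtain ⟨K, hK, hbox⟩ := smD_box
  obtain ⟨B, hB⟩ : ∃ B, B = (32 * K) ^ (J0 + 1) * C ^ 4 := ⟨_, rfl⟩
  have hB1 : 1 ≤ B := by
    rw [hB]
    exact one_le_mul_of_one_le_of_one_le (one_le_pow₀ (by linarith)) (one_le_pow₀ hC)
  have hq : ∀ mu : ℕ, (1 : ℝ) ≤ K * 2 ^ (mu + 3) := fun mu =>
    one_le_mul_of_one_le_of_one_le hK (one_le_pow₀ (by norm_num))
  have hnum : ∀ mu : ℕ, (4 * (K * 2 ^ (mu + 3))) ^ (J0 + 1) * C ^ (mu + 3 + 1) ≤ B ^ (mu + 1) := fun mu => by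
    rw [hB]
    exact num_pow hK hC
  have hG : ∀ kc mu : ℕ, k1 ≤ kc → GB DmJ kc (BrR (2 ^ (kc + 4)) (2 ^ (kc + 5 + mu))) J0 (C ^ (mu + 3 + 1) / m kc) := by
    intro kc mu hk
    have := hGB kc (mu + 3) hk
    rwa [show kc + (mu + 3) + 2 = kc + 5 + mu by ring] at this
  have hX : ∀ kc mu : ℕ, SmD DmJ kc (BrR (2 ^ (kc + 4)) (2 ^ (kc + 5 + mu))) (K * 2 ^ (mu + 3)) := by
    intro kc mu
    have := hbox kc (mu + 3)
    rwa [show kc + (mu + 3) + 2 = kc + 5 + mu by ring] at this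
  constructor
  · obtain ⟨K1, s, hK1, h⟩ := smR_tv
    obtain ⟨a, ha⟩ := pow_unbounded_of_one_lt K1 (one_lt_two (α := ℝ))
    refine ⟨2 * (a + 2), s, k1, 2 * (J0 + 1) + 1, 2 * B, by linarith, fun kc mu d hk hd => ?_⟩
    have hmk := hm kc
    obtain ⟨d1, hd1⟩ : ∃ d1, d = d1 + (J0 + 1) := ⟨d - (J0 + 1), by omega⟩
    obtain ⟨V, hV⟩ : ∃ V, V = (a + 2) * d := ⟨_, rfl⟩
    have hRH : InH (2 ^ (kc + 4)) (TvR kc s d1 V) := fun gs hgs g hg => (hgs.2.1 g hg).2
    obtain ⟨δ1, hδ1⟩ : ∃ δ1 : ℝ, δ1 = K1 ^ d1 / 2 ^ V := ⟨_, rfl⟩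
    have hδ0 : 0 ≤ δ1 := by
      rw [hδ1]
      positivity
    have hR : SmR DmJ kc (TvR kc s d1 V) δ1 := by
      rw [hδ1]
      exact h kc d1 V (by omega)
    have hδ4 : δ1 ≤ 1 / 4 ^ d := by
      rw [hδ1, div_le_div_iff₀ (by positivity) (by positivity), one_mul]
      calc K1 ^ d1 * 4 ^ d ≤ K1 ^ d * 4 ^ d := by
            refine mul_le_mul_of_nonneg_right (pow_le_pow_right₀ hK1 (by omega)) (by positivity)
        _ ≤ (2 ^ a) ^ d * 4 ^ d := by
            refine mul_le_mul_of_nonneg_right (pow_le_pow_left₀ (by linarith) ha.le _) (by positivity)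
        _ = 2 ^ V := by
            rw [hV, ← mul_pow, pow_mul]
            congr 1
            rw [pow_add]
            norm_num
    have h1 := smRX_after dmP inH_box (hq mu) hδ0 (hG kc mu hk) (hX kc mu) hRH hR
    have h2 := smRX_before dmP inH_box (hq mu) hδ0 (hG kc mu hk) (hX kc mu) hRH hR
    have hE : 0 ≤ C ^ (mu + 3 + 1) / m kc := by positivity
    have hqq : 0 ≤ (4 * (K * 2 ^ (mu + 3))) ^ (J0 + 1) := by positivity
    refine SmRX.le (SmRX.anti (smRX_union (mul_nonneg hδ0 (mul_nonneg hqq hE)) (mul_nonneg (mul_nonneg hqq hE) hδ0)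
      h1 h2) ?_) ?_
    · rintro gs ⟨⟨a1, a2, a3⟩, a4⟩
      have hs := sum_split (f := fun g => hgt g / 2 ^ (kc + s)) (gs := gs) (d := d1) (j := J0 + 1) (by omega)
      have hor : V ≤ ((gs.take d1).map fun g => hgt g / 2 ^ (kc + s)).sum ∨
          V ≤ ((gs.drop (J0 + 1)).map fun g => hgt g / 2 ^ (kc + s)).sum := by
        have e1 : 2 * (a + 2) * d = V + V := by rw [hV]; ring
        rw [e1] at a3
        omega
      rcases hor with h3 | h3
      · left
        refine ⟨gs.take d1, ⟨?_, fun g hg => a2 g (List.mem_of_mem_take hg), h3⟩, gs.drop d1, ?_, ?_,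
          fun g hg => a4 g (List.mem_of_mem_drop hg), (List.take_append_drop d1 gs).symm⟩
        · rw [List.length_take]
          omega
        · intro h0
          have := congrArg List.length h0
          rw [List.length_take, List.length_nil] at this
          omega
        · rw [List.length_drop]
          omega
      · right
        refine ⟨gs.drop (J0 + 1), ⟨?_, fun g hg => a2 g (List.mem_of_mem_drop hg), h3⟩, gs.take (J0 + 1), ?_, ?_,
          fun g hg => a4 g (List.mem_of_mem_take hg), (List.take_append_drop (J0 + 1) gs).symm⟩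
        · rw [List.length_drop]
          omega
        · intro h0
          have := congrArg List.length h0
          rw [List.length_drop, List.length_nil] at this
          omega
        · rw [List.length_take]
          omega
    · have e0 : δ1 * ((4 * (K * 2 ^ (mu + 3))) ^ (J0 + 1) * (C ^ (mu + 3 + 1) / m kc)) +
          (4 * (K * 2 ^ (mu + 3))) ^ (J0 + 1) * (C ^ (mu + 3 + 1) / m kc) * δ1 =
          2 * δ1 * ((4 * (K * 2 ^ (mu + 3))) ^ (J0 + 1) * C ^ (mu + 3 + 1)) / m kc := by ring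
      rw [e0]
      refine div_le_div_of_nonneg_right ?_ hmk.le
      have e1 : (2 : ℝ) ≤ 2 ^ (mu + 1) := by
        calc (2 : ℝ) = 2 ^ 1 := (pow_one _).symm
          _ ≤ _ := pow_le_pow_right₀ (by norm_num) (by omega)
      calc 2 * δ1 * ((4 * (K * 2 ^ (mu + 3))) ^ (J0 + 1) * C ^ (mu + 3 + 1)) ≤
          2 ^ (mu + 1) * (1 / 4 ^ d) * B ^ (mu + 1) := by
            have := hnum mu
            gcongr
        _ = (2 * B) ^ (mu + 1) / 4 ^ d := by rw [mul_pow]; ring
  · intro Λ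
    obtain ⟨k0, w0, Q, C0, hw, hQ, hC0, h⟩ := smR_crdT (2 * Λ)
    refine ⟨w0, 4 * Q, k0 + k1, 2 * (J0 + 1) + 8, 2 * ((C0 + 1) * 4 ^ (J0 + 1)) * B, by omega, by omega, ?_,
      fun kc mu d n hk hd hn => ?_⟩
    · have h3 : (1 : ℝ) ≤ (C0 + 1) * 4 ^ (J0 + 1) :=
        one_le_mul_of_one_le_of_one_le (by linarith) (one_le_pow₀ (by norm_num))
      exact one_le_mul_of_one_le_of_one_le (by linarith) hB1
    have hmk := hm kc
    obtain ⟨d1, hd1⟩ : ∃ d1, d = d1 + (J0 + 1) := ⟨d - (J0 + 1), by omega⟩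
    have hn2 : 2 * Q * (n + 1) ≤ d1 := by
      have e1 : 4 * Q * (n + 1) = 2 * (2 * Q * (n + 1)) := by ring
      omega
    have hR := h kc mu d1 n (by omega) (by omega) hn2
    have hRH : InH (2 ^ (kc + 4)) (CrdT kc mu w0 (2 * Λ) n d1) := fun gs hgs g hg => inH_box (hgs.1.2.2.1 g hg)
    have h1 := smRX_after dmP inH_box (hq mu) (by positivity) (hG kc mu (by omega)) (hX kc mu) hRH hR
    refine SmRX.le (SmRX.anti h1 ?_) ?_
    · rintro gs ⟨h2, h3⟩
      have hl := h2.1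
      have h4 := CS_take (m := d1) (by omega) h2
      refine ⟨gs.take d1, ⟨h4, ?_⟩, gs.drop d1, ?_, ?_, fun g hg => h2.2.2.1 g (List.mem_of_mem_drop hg),
        (List.take_append_drop d1 gs).symm⟩
      · have h5 : dbl (2 ^ (kc + 4)) (gs.take d1) ≤ dbl (2 ^ (kc + 4)) gs := by
          unfold dbl
          apply List.Sublist.sum_le_sum
          · exact (List.take_sublist d1 gs).map _
          · intro a _
            exact Nat.zero_le a
        have h6 : Λ * d ≤ 2 * Λ * d1 := by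
          calc Λ * d ≤ Λ * (2 * d1) := Nat.mul_le_mul_left _ (by omega)
            _ = _ := by ring
        omega
      · intro h0
        have := h4.1
        rw [h0, List.length_nil] at this
        omega
      · rw [List.length_drop]
        omega
    · have e0 : C0 * 2 ^ mu / 4 ^ d1 * ((4 * (K * 2 ^ (mu + 3))) ^ (J0 + 1) * (C ^ (mu + 3 + 1) / m kc)) =
          C0 * 2 ^ mu / 4 ^ d1 * ((4 * (K * 2 ^ (mu + 3))) ^ (J0 + 1) * C ^ (mu + 3 + 1)) / m kc := by ring
      rw [e0]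
      refine div_le_div_of_nonneg_right ?_ hmk.le
      have e1 : C0 * 2 ^ mu / 4 ^ d1 = C0 * 4 ^ (J0 + 1) * 2 ^ mu / 4 ^ d := by
        rw [div_eq_div_iff (by positivity) (by positivity), hd1, pow_add 4 d1]
        ring
      have e2 : C0 * 4 ^ (J0 + 1) * 2 ^ mu ≤ (2 * ((C0 + 1) * 4 ^ (J0 + 1))) ^ (mu + 1) := by
        have f1 : (1 : ℝ) ≤ (C0 + 1) * 4 ^ (J0 + 1) :=
          one_le_mul_of_one_le_of_one_le (by linarith) (one_le_pow₀ (by norm_num))
        have f2 : C0 * 4 ^ (J0 + 1) ≤ (C0 + 1) * 4 ^ (J0 + 1) := by gcongr; linarith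
        have f3 : (2 : ℝ) ^ mu ≤ 2 ^ (mu + 1) := pow_le_pow_right₀ (by norm_num) (by omega)
        have f4 : (C0 + 1) * 4 ^ (J0 + 1) ≤ ((C0 + 1) * 4 ^ (J0 + 1)) ^ (mu + 1) := by
          calc (C0 + 1) * 4 ^ (J0 + 1) = ((C0 + 1) * 4 ^ (J0 + 1)) ^ 1 := (pow_one _).symm
            _ ≤ _ := pow_le_pow_right₀ f1 (by omega)
        calc C0 * 4 ^ (J0 + 1) * 2 ^ mu ≤ ((C0 + 1) * 4 ^ (J0 + 1)) ^ (mu + 1) * 2 ^ (mu + 1) :=
              mul_le_mul (f2.trans f4) f3 (by positivity) (by positivity)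
          _ = _ := by rw [mul_pow 2]; ring
      rw [e1]
      calc C0 * 4 ^ (J0 + 1) * 2 ^ mu / 4 ^ d * ((4 * (K * 2 ^ (mu + 3))) ^ (J0 + 1) * C ^ (mu + 3 + 1)) ≤
          (2 * ((C0 + 1) * 4 ^ (J0 + 1))) ^ (mu + 1) / 4 ^ d * B ^ (mu + 1) := by
            have := hnum mu
            gcongr
        _ = _ := by rw [mul_pow _ B]; ring

end NC

end HexObs
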