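import Pool.Agent.NC.NCX
import Pool.Agent.NC.NcX
import Pool.Agent.EN.GBM
import Pool.Agent.VF.MeanZ
import Pool.Agent.VF.SharpZ

/-!
NC (natural content), the walks with exactly n steps: m k = the mean length of the bridges of the scale 2 ^ k, of the order
2 ^ (4 k / 3).
-/

set_option autoImplicit false

namespace HexObs

namespace NC

open Finset TS SDN NTW NTA EN

open scoped ENNReal

/-- the mean length is of the order 2 ^ (4 k / 3) -/
theorem mm_M : MM (fun k => PW.mZ (2 ^ k)) := by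
  obtain ⟨C, hC, h1⟩ := VF.mUp VF.sharpZ
  obtain ⟨c, hc, h2⟩ := VF.mLow VF.sharpZ
  refine ⟨c, max C 1, hc, le_max_right _ _, fun k => ⟨h2 k, (h1 k).trans ?_⟩⟩
  gcongr
  exact le_max_left _ _

/-- **every time interval visits many cells at every scale, every number of steps** -/
theorem nca_M (hS : ESPw (fun k => PW.mZ (2 ^ k))) : NCA (fun k => PW.mZ (2 ^ k)) (4 / 3) := by
  obtain ⟨J0, h⟩ := gbm_M
  exact nca_of mlow_M mm_M (ensR_x mlow_M mup_M (h J0 le_rfl)) (ncR_x mlow_M.pos (h J0 le_rfl)) extM hS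

theorem ncx_M (hS : ESPw (fun k => PW.mZ (2 ^ k))) : DIM.NCX (fun k => PW.mZ (2 ^ k)) (4 / 3) := ncx_of_nca (nca_M hS)

end NC

end HexObs
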