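import Mathlib.Data.Finset.Lattice.Fold
import Mathlib.Order.Interval.Finset.Nat
import Mathlib.Algebra.BigOperators.Group.Finset.Basic
import Mathlib.Tactic.Linarith
import Mathlib.Tactic.Ring
import Mathlib.Tactic.Push
import Mathlib.Data.Real.Basic

/-!
NC (natural content): potentials of a function without small backtracks on pieces; the number of boxes of a path.
-/

set_option autoImplicit false

namespace HexObs

namespace NC

open Finset

/-- a potential of the function f at the times x, ..., y: it does not decrease, and grows by R when f moves by 2 R -/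
def Pot (f : ℕ → ℤ) (R : ℤ) (x y : ℕ) (T : ℤ) : Prop :=
  ∃ P : ℕ → ℤ, (∀ i j, x ≤ i → i ≤ j → j ≤ y → P i ≤ P j) ∧
    (∀ i j, x ≤ i → i ≤ j → j ≤ y → 2 * R ≤ |f j - f i| → P i + R ≤ P j) ∧ P y - P x ≤ T

lemma Pot.mono {f : ℕ → ℤ} {R : ℤ} {x y : ℕ} {T T' : ℤ} (h : Pot f R x y T) (hT : T ≤ T') : Pot f R x y T' := by
  obtain ⟨P, h1, h2, h3⟩ := h
  exact ⟨P, h1, h2, h3.trans hT⟩

/-- one piece -/
theorem pot_piece {f : ℕ → ℤ} {R : ℤ} {x y : ℕ} {s H : ℤ} (hxy : x ≤ y) (hs : s = 1 ∨ s = -1)
    (hb : ∀ i j, x ≤ i → i ≤ j → j ≤ y → s * f i - s * f j < R) (hH : s * f y - s * f x ≤ H) :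
    Pot f R x y (H + R) := by
  have hR : 0 < R := by
    have := hb x x le_rfl le_rfl hxy
    linarith
  have hne : ∀ j : ℕ, (Finset.Icc x (max x j)).Nonempty := fun j => ⟨x, Finset.mem_Icc.2 ⟨le_rfl, le_max_left _ _⟩⟩
  refine ⟨fun j => (Finset.Icc x (max x j)).sup' (hne j) fun i => s * f i, ?_, ?_, ?_⟩
  · intro i j _ hij _
    apply Finset.sup'_mono
    intro a ha
    rw [Finset.mem_Icc] at ha ⊢
    exact ⟨ha.1, ha.2.trans (max_le_max le_rfl hij)⟩
  · intro i j hi hij hj hf
    have h1 : (Finset.Icc x (max x i)).sup' (hne i) (fun i => s * f i) < s * f i + R := by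
      rw [Finset.sup'_lt_iff]
      intro a ha
      rw [Finset.mem_Icc, max_eq_right hi] at ha
      have := hb a i ha.1 ha.2 (hij.trans hj)
      linarith
    have h2 : s * f j ≤ (Finset.Icc x (max x j)).sup' (hne j) (fun i => s * f i) := by
      apply Finset.le_sup' (fun i => s * f i)
      rw [Finset.mem_Icc]
      exact ⟨hi.trans hij, le_max_right _ _⟩
    have h3 := hb i j hi hij hj
    have h4 : s * f i + 2 * R ≤ s * f j := by
      rcases hs with rfl | rfl
      · rcases abs_cases (f j - f i) with h5 | h5 <;> linarith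
      · rcases abs_cases (f j - f i) with h5 | h5 <;> linarith
    simp only
    linarith
  · have h1 : (Finset.Icc x (max x y)).sup' (hne y) (fun i => s * f i) < s * f y + R := by
      rw [Finset.sup'_lt_iff]
      intro a ha
      rw [Finset.mem_Icc, max_eq_right hxy] at ha
      have := hb a y ha.1 ha.2 le_rfl
      linarith
    have h2 : s * f x ≤ (Finset.Icc x (max x x)).sup' (hne x) (fun i => s * f i) := by
      apply Finset.le_sup' (fun i => s * f i)
      rw [Finset.mem_Icc]
      exact ⟨le_rfl, le_max_right _ _⟩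
    simp only
    linarith

/-- no time -/
lemma pot_nil {f : ℕ → ℤ} {R : ℤ} (hR : 0 < R) (x : ℕ) : Pot f R x x 0 := by
  refine ⟨fun _ => 0, fun _ _ _ _ _ => le_rfl, fun i j hi hij hj h => ?_, by simp⟩
  have h1 : i = j := by omega
  subst h1
  simp only [sub_self, abs_zero] at h
  omega

/-- two intervals of times -/
theorem pot_append {f : ℕ → ℤ} {R : ℤ} {x z y : ℕ} {T1 T2 : ℤ} (hR : 0 ≤ R) (hxz : x ≤ z) (hzy : z ≤ y)
    (h1 : Pot f R x z T1) (h2 : Pot f R z y T2) : Pot f R x y (T1 + T2 + R) := by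
  obtain ⟨P, a1, a2, a3⟩ := h1
  obtain ⟨Q, b1, b2, b3⟩ := h2
  refine ⟨fun j => if j < z then P j else P z + R + (Q j - Q z), ?_, ?_, ?_⟩
  · intro i j hi hij hj
    simp only
    by_cases hiz : i < z
    · rw [if_pos hiz]
      by_cases hjz : j < z
      · rw [if_pos hjz]
        exact a1 i j hi hij hjz.le
      · rw [if_neg hjz]
        have c1 := a1 i z hi hiz.le le_rfl
        have c2 := b1 z j le_rfl (by omega) hj
        linarith
    · rw [if_neg hiz, if_neg (by omega)]
      have := b1 i j (by omega) hij hj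
      linarith
  · intro i j hi hij hj hf
    simp only
    by_cases hiz : i < z
    · rw [if_pos hiz]
      by_cases hjz : j < z
      · rw [if_pos hjz]
        exact a2 i j hi hij hjz.le hf
      · rw [if_neg hjz]
        have c1 := a1 i z hi hiz.le le_rfl
        have c2 := b1 z j le_rfl (by omega) hj
        linarith
    · rw [if_neg hiz, if_neg (by omega)]
      have := b2 i j (by omega) hij hj hf
      linarith
  · simp only
    rw [if_neg (by omega : ¬ y < z)]
    have c1 := a1 x z le_rfl hxz le_rfl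
    by_cases hx : x < z
    · rw [if_pos hx]
      linarith
    · rw [if_neg hx]
      have : x = z := by omega
      subst this
      linarith

/-- many pieces -/
theorem pot_sum {f : ℕ → ℤ} {R : ℤ} (hR : 0 < R) (c : ℕ → ℕ) (T : ℕ → ℤ) (k : ℕ) (hc : ∀ p, p < k → c p ≤ c (p + 1))
    (h : ∀ p, p < k → Pot f R (c p) (c (p + 1)) (T p)) : Pot f R (c 0) (c k) (∑ p ∈ range k, (T p + R)) := by
  induction k with
  | zero =>
    rw [Finset.range_zero, Finset.sum_empty]
    exact pot_nil hR _
  | succ k ih =>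
    have h1 := ih (fun p hp => hc p (by omega)) (fun p hp => h p (by omega))
    have hm : ∀ p, p ≤ k → c 0 ≤ c p := by
      intro p
      induction p with
      | zero => intro _; exact le_rfl
      | succ p ih' => intro hp; exact (ih' (by omega)).trans (hc p (by omega))
    have h2 := pot_append hR.le (hm k le_rfl) (hc k (by omega)) h1 (h k (by omega))
    rw [Finset.sum_range_succ]
    refine h2.mono ?_
    linarith

/-- the time spent, from the potentials of two coordinates -/
theorem pot_time {f g : ℕ → ℤ} {R : ℤ} (hR : 0 < R) {S : ℝ} (hS : 0 ≤ S) {x y : ℕ} {Tf Tg : ℤ} (hxy : x ≤ y)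
    (hf : Pot f R x y Tf) (hg : Pot g R x y Tg)
    (hbox : ∀ x' y', x ≤ x' → x' ≤ y' → y' ≤ y → (∀ i j, x' ≤ i → i ≤ y' → x' ≤ j → j ≤ y' →
      f i - f j < 4 * R ∧ g i - g j < 4 * R) → (y' : ℝ) - x' ≤ S) :
    (R : ℝ) * ((y : ℝ) - x) ≤ (S + 1) * (Tf + Tg + R) := by
  obtain ⟨P, a1, a2, a3⟩ := hf
  obtain ⟨Q, b1, b2, b3⟩ := hg
  have hR0 : (0 : ℝ) < R := by exact_mod_cast hR
  have key : ∀ d z, x ≤ z → z ≤ y → y - z = d → (R : ℝ) * ((y : ℝ) - z) ≤
      (S + 1) * (((P y - P z + (Q y - Q z) + R : ℤ) : ℝ)) := by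
    intro d
    induction d using Nat.strong_induction_on with
    | _ d ih =>
    intro z hz hzy hd
    by_cases hex : ∃ j, z ≤ j ∧ j ≤ y ∧ (2 * R ≤ |f j - f z| ∨ 2 * R ≤ |g j - g z|)
    · obtain ⟨j, hj⟩ : ∃ j, j = Nat.find hex := ⟨_, rfl⟩
      obtain ⟨j1, j2, j3⟩ := Nat.find_spec hex
      rw [← hj] at j1 j2 j3
      have hmin : ∀ i, z ≤ i → i < j → |f i - f z| < 2 * R ∧ |g i - g z| < 2 * R := by
        intro i hi hij
        have := Nat.find_min hex (hj ▸ hij)
        push Not at this
        exact this hi (by omega)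
      have hzj : z < j := by
        rcases Nat.lt_or_ge z j with h | h
        · exact h
        · have : j = z := by omega
          rw [this] at j3
          simp only [sub_self, abs_zero, or_self] at j3
          omega
      have h1 : ((j - 1 : ℕ) : ℝ) - z ≤ S := by
        refine hbox z (j - 1) hz (by omega) (by omega) ?_
        intro i i' hi hi' hj' hj''
        obtain ⟨c1, c2⟩ := hmin i hi (by omega)
        obtain ⟨c3, c4⟩ := hmin i' hj' (by omega)
        rw [abs_lt] at c1 c2 c3 c4
        constructor <;> linarith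
      rw [Nat.cast_sub (by omega : 1 ≤ j)] at h1
      have h2 := ih (y - j) (by omega) j (by omega) j2 rfl
      have h3 : P z + Q z + R ≤ P j + Q j := by
        have c1 := a1 z j hz j1 j2
        have c2 := b1 z j hz j1 j2
        rcases j3 with h | h
        · have := a2 z j hz j1 j2 h
          linarith
        · have := b2 z j hz j1 j2 h
          linarith
      have h3' : (P z : ℝ) + Q z + R ≤ P j + Q j := by exact_mod_cast h3
      push_cast at h1 h2 ⊢
      have h4 : (R : ℝ) * ((j : ℝ) - z) ≤ (S + 1) * R := by nlinarith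
      nlinarith
    · push Not at hex
      have h1 : (y : ℝ) - z ≤ S := by
        refine hbox z y hz hzy le_rfl ?_
        intro i i' hi hi' hj hj'
        obtain ⟨c1, c2⟩ := hex i hi hi'
        obtain ⟨c3, c4⟩ := hex i' hj hj'
        rw [abs_lt] at c1 c2 c3 c4
        constructor <;> linarith
      have h2 : (0 : ℝ) ≤ ((P y - P z + (Q y - Q z) : ℤ) : ℝ) := by
        have c1 := a1 z y hz hzy le_rfl
        have c2 := b1 z y hz hzy le_rfl
        exact_mod_cast (by linarith : (0 : ℤ) ≤ P y - P z + (Q y - Q z))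
      push_cast at h2 ⊢
      have h3 : (R : ℝ) * ((y : ℝ) - z) ≤ (S + 1) * R := by nlinarith
      nlinarith
  have h := key (y - x) x le_rfl hxy rfl
  refine h.trans ?_
  have h1 : ((P y - P x + (Q y - Q x) + R : ℤ) : ℝ) ≤ Tf + Tg + R := by
    exact_mod_cast (by linarith : P y - P x + (Q y - Q x) + R ≤ Tf + Tg + R)
  exact mul_le_mul_of_nonneg_left h1 (by linarith)

end NC

end HexObs
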