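import Pool.Agent.NC.RunI
import Pool.Agent.NC.Pot
import Pool.Agent.SDN.TvLaw

/-!
NC (natural content): the time spent by an arc without bad runs is at most the number of its cells times the longest time
spent in a box.
-/

set_option autoImplicit false

namespace HexObs

namespace NC

open Finset TS SDN NTW NTA

open scoped ENNReal

/-- few pieces -/
lemma pot_few {f : ℕ → ℤ} {R HD : ℤ} (hR : 0 < R) (hH0 : 0 ≤ HD) {a : ℕ → ℕ} {M : ℕ}
    (hpc : ∀ p, p < M → ∃ s : ℤ, (s = 1 ∨ s = -1) ∧ ∀ i j, a p ≤ i → i ≤ j → j ≤ a (p + 1) → s * f i - s * f j < R)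
    {z : ℕ} : ∀ (r q z' : ℕ), q + r ≤ M → a q ≤ z → z ≤ z' → z' ≤ a (q + r) →
    (∀ i j, z ≤ i → i ≤ z' → z ≤ j → j ≤ z' → |f i - f j| ≤ HD) → Pot f R z z' (r * (HD + 2 * R)) := by
  intro r
  induction r with
  | zero =>
    intro q z' _ h1 h2 h3 _
    rw [add_zero] at h3
    have : z = z' := by omega
    subst this
    simpa using pot_nil hR z
  | succ r ih =>
    intro q z' hq h1 h2 h3 hb
    by_cases h4 : z' ≤ a (q + r)
    · refine (ih q z' (by omega) h1 h2 h4 hb).mono ?_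
      push_cast
      nlinarith
    rw [not_le] at h4
    obtain ⟨s, hs, hs2⟩ := hpc (q + r) (by omega)
    have hH : ∀ w, z ≤ w → w ≤ z' → s * f z' - s * f w ≤ HD := by
      intro w hw hw'
      have h5 := hb z' w h2 le_rfl hw hw'
      rw [abs_le] at h5
      rcases hs with rfl | rfl <;> linarith [h5.1, h5.2]
    by_cases h5 : a (q + r) ≤ z
    · refine (pot_piece h2 hs (fun i j hi hij hj => hs2 i j (h5.trans hi) hij (hj.trans h3)) (hH z le_rfl h2)).mono ?_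
      push_cast
      nlinarith
    · rw [not_le] at h5
      have c1 := ih q (a (q + r)) (by omega) h1 h5.le le_rfl
        (fun i j hi hi' hj hj' => hb i j hi (hi'.trans h4.le) hj (hj'.trans h4.le))
      have c2 : Pot f R (a (q + r)) z' (HD + R) :=
        pot_piece h4.le hs (fun i j hi hij hj => hs2 i j hi hij (hj.trans h3)) (hH _ h5.le h4.le)
      refine (pot_append hR.le h5.le h4.le c1 c2).mono ?_
      push_cast
      linarith

/-- the potential of a level, from the interior leaves -/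
theorem pot_dir {dir : Bool} {b m u x y : ℕ} {t : List Bool} {e : ℕ → ℕ} (ht : t ∈ SA) (hb : 1 ≤ b)
    (hF : Lf dir b t m u e) (hxy : x < y) (hy : y ≤ t.length) :
    ∃ l d : ℕ, (d = 0 ∨ (2 ≤ l ∧ l + d + 1 ≤ m ∧ x ≤ e l ∧ e (l + d) ≤ y)) ∧
      Pot (fun i => lvl dir (vx oo up t i)) (RR b) x y (6 * (3 * 2 ^ b * nI b t x y + 2 * RR b) + 2 * RR b +
        ∑ i ∈ range d, (3 * (hgt (lw t (e (l + i)) (e (l + i + 1))) : ℤ) + 1 + 2 * RR b)) := by
  have hF' := hF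
  unfold Lf at hF'
  have hR := RR_ge hb
  have hR0 : 0 < RR b := by omega
  obtain ⟨HD, hHD⟩ : ∃ HD : ℤ, HD = 3 * 2 ^ b * nI b t x y := ⟨_, rfl⟩
  have hHD0 : 0 ≤ HD := by rw [hHD]; positivity
  have hrange : ∀ i j, x ≤ i → i ≤ y → x ≤ j → j ≤ y →
      |(fun i => lvl dir (vx oo up t i)) i - (fun i => lvl dir (vx oo up t i)) j| ≤ HD := by
    intro i j hi hi' hj hj'
    rw [hHD]
    exact lvl_nI dir hj hj' hi hi'
  rw [← hHD]
  obtain ⟨a, ha⟩ : ∃ a, a = T2.cpt t.length m e := ⟨_, rfl⟩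
  have a0 : a 0 = 0 := by rw [ha]; exact T2.cpt_zero _ _ _
  have aM : a (m + 2) = t.length := by rw [ha]; exact T2.cpt_end _ _ _
  have am : ∀ p, p < m + 2 → a p ≤ a (p + 1) := by
    intro p hp
    rw [ha]
    exact cpt_mono hF hp
  have ai : ∀ i, i ≤ m → a (i + 1) = e i := by
    intro i hi
    rw [ha]
    exact T2.cpt_mid _ _ _ hi
  have amm : ∀ i j, i ≤ j → j ≤ m + 2 → a i ≤ a j := by
    intro i j hij
    induction j, hij using Nat.le_induction with
    | base => intro _; exact le_rfl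
    | succ j hj ih => intro hjM; exact (ih (by omega)).trans (am j (by omega))
  have hpc : ∀ p, p < m + 2 → ∃ s : ℤ, (s = 1 ∨ s = -1) ∧ ∀ i j, a p ≤ i → i ≤ j → j ≤ a (p + 1) →
      s * (fun i => lvl dir (vx oo up t i)) i - s * (fun i => lvl dir (vx oo up t i)) j < RR b := by
    intro p hp
    rw [ha]
    exact lf_piece hF hp
  obtain ⟨p0, d, hpd, hx1, hx2, hy1, hy2⟩ := cut_restrict a0 aM am hxy hy
  obtain ⟨la, hla⟩ : ∃ la, la = max p0 2 := ⟨_, rfl⟩
  obtain ⟨lb, hlb⟩ : ∃ lb, lb = min (p0 + d - 1) (m - 1) := ⟨_, rfl⟩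
  obtain ⟨d', hd'⟩ : ∃ d', d' = lb - la := ⟨_, rfl⟩
  refine ⟨la, d', ?_, ?_⟩
  · rcases Nat.eq_zero_or_pos d' with h0 | h0
    · exact Or.inl h0
    · right
      have e1 : la ≤ m - 1 := by omega
      have e2 : la + d' ≤ m - 1 := by omega
      refine ⟨by omega, by omega, ?_, ?_⟩
      · rw [← ai la (by omega)]
        exact hx2.le.trans (amm _ _ (by omega) (by omega))
      · rw [← ai (la + d') (by omega)]
        exact (amm _ (p0 + d) (by omega) (by omega)).trans hy1.le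
  rcases Nat.eq_zero_or_pos d' with h0 | h0
  · -- no run
    rw [h0, Finset.range_zero, Finset.sum_empty]
    have h1 := pot_few hR0 hHD0 hpc (z := x) (d + 1) p0 y (by omega) hx1 hxy.le (by rw [← add_assoc]; exact hy2) hrange
    refine h1.mono ?_
    have h2 : ((d + 1 : ℕ) : ℤ) ≤ 6 := by
      have : d + 1 ≤ 6 := by omega
      exact_mod_cast this
    nlinarith
  · -- a run
    have e1 : la + d' ≤ m - 1 := by omega
    have hlbe : lb = la + d' := by omega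
    have z1 : a (la + 1) = e la := ai la (by omega)
    have z2 : a (lb + 1) = e lb := ai lb (by omega)
    have hz1 : x ≤ a (la + 1) := hx2.le.trans (amm _ _ (by omega) (by omega))
    have hz2 : a (lb + 1) ≤ y := (amm _ (p0 + d) (by omega) (by omega)).trans hy1.le
    have hz12 : a (la + 1) ≤ a (lb + 1) := amm _ _ (by omega) (by omega)
    have h1 := pot_few hR0 hHD0 hpc (z := x) (la + 1 - p0) p0 (a (la + 1)) (by omega) hx1 hz1
      (by rw [show p0 + (la + 1 - p0) = la + 1 by omega])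
      (fun i j hi hi' hj hj' => hrange i j hi (hi'.trans (hz12.trans hz2)) hj (hj'.trans (hz12.trans hz2)))
    have h2 := pot_few hR0 hHD0 hpc (z := a (lb + 1)) (p0 + d - lb) (lb + 1) y (by omega) le_rfl hz2
      (by rw [show lb + 1 + (p0 + d - lb) = p0 + d + 1 by omega]; exact hy2)
      (fun i j hi hi' hj hj' => hrange i j ((hz1.trans hz12).trans hi) hi' ((hz1.trans hz12).trans hj) hj')
    have h3 := pot_sum (f := fun i => lvl dir (vx oo up t i)) hR0 (fun j => e (la + j))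
      (fun i => 3 * (hgt (lw t (e (la + i)) (e (la + i + 1))) : ℤ) + 1 + RR b) d'
      (fun p hp => lf_mono hF (by omega) (by omega)) (fun p hp => by
        obtain ⟨n, n1, -, -, n4⟩ := int_leafD ht hb hF (j := la + p) (by omega) (by omega)
        rw [hgt_eq n1]
        obtain ⟨s, hs, hs2⟩ := lf_piece hF (p := la + p + 1) (by omega)
        rw [T2.cpt_mid _ _ _ (by omega : la + p ≤ m), T2.cpt_mid _ _ _ (by omega : la + p + 1 ≤ m)] at hs2
        refine pot_piece (lf_mono hF (by omega) (by omega)) hs hs2 ?_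
        have h5 := abs_le.1 n4.le
        rcases hs with rfl | rfl
        · rw [one_mul, one_mul]
          exact h5.2
        · rw [neg_one_mul, neg_one_mul]
          have h6 : -(3 * (n : ℤ) + 1) ≤ lvl dir (vx oo up t (e (la + (p + 1)))) - lvl dir (vx oo up t (e (la + p))) := h5.1
          show -lvl dir (vx oo up t (e (la + (p + 1)))) - -lvl dir (vx oo up t (e (la + p))) ≤ 3 * (n : ℤ) + 1
          linarith)
    simp only [add_zero] at h3
    rw [← hlbe, ← z1, ← z2] at h3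
    have h4 := pot_append hR0.le (hz1.trans hz12) hz2 (pot_append hR0.le hz1 hz12 h1 h3) h2
    refine h4.mono ?_
    have c1 : ((la + 1 - p0 : ℕ) : ℤ) ≤ 3 := by
      have : la + 1 - p0 ≤ 3 := by omega
      exact_mod_cast this
    have c2 : ((p0 + d - lb : ℕ) : ℤ) ≤ 3 := by
      have : p0 + d - lb ≤ 3 := by omega
      exact_mod_cast this
    have c3 : ∑ p ∈ range d', (3 * (hgt (lw t (e (la + p)) (e (la + p + 1))) : ℤ) + 1 + RR b + RR b) =
        ∑ i ∈ range d', (3 * (hgt (lw t (e (la + i)) (e (la + i + 1))) : ℤ) + 1 + 2 * RR b) :=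
      Finset.sum_congr rfl fun i _ => by ring
    rw [c3]
    nlinarith

/-- no bad run of the scale kc + 5 -/
def NoBad (A0 s w0 Q mu m0 kc : ℕ) (t : List Bool) : Prop :=
  ∀ (dir : Bool) (d : ℕ), m0 ≤ d → ¬ HasRun dir kc (TvB kc mu s d (A0 * d)) t ∧
    ∀ n : ℕ, Q * (n + 1) ≤ d → ¬ HasRun dir kc (CrdT kc mu w0 (A0 + s) n d) t

/-- the potential of a level is at most a constant times the number of the cells -/
theorem pot_cells : ∀ A0 s w0 Q : ℕ, ∃ C : ℝ, 1 ≤ C ∧ ∀ (dir : Bool) (kc mu m0 x y : ℕ) (t : List Bool), t ∈ SA →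
    w0 ≤ kc → 6 ≤ m0 → x < y → Bx (kc + 5 + mu) t x y → NoBad A0 s w0 Q mu m0 kc t →
    ∃ T : ℤ, Pot (fun i => lvl dir (vx oo up t i)) (RR (kc + 5)) x y T ∧
      (T : ℝ) ≤ C * m0 * nI (kc + 5) t x y * 2 ^ (kc + 5) := by
  obtain ⟨Cc, hCc, hcs⟩ := run_csI
  intro A0 s w0 Q
  obtain ⟨B, hB⟩ : ∃ B : ℝ, B = Q * (Cc * 2 ^ w0 + 1) := ⟨_, rfl⟩
  have hB0 : 0 ≤ B := by rw [hB]; positivity
  refine ⟨70 + 7 * B + 3 * (2 ^ s * (A0 + 1) * B), ?_, fun dir kc mu m0 x y t ht hw0 hm0 hxy hbx hno => ?_⟩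
  · have : 0 ≤ 3 * (2 ^ s * ((A0 : ℝ) + 1) * B) := by positivity
    linarith
  obtain ⟨m, u, e, hF⟩ := lf_exists dir (kc + 5) t
  obtain ⟨l, d, hld, hP⟩ := pot_dir ht (by omega : 1 ≤ kc + 5) hF hxy hbx.2.1
  obtain ⟨D, hD⟩ : ∃ D, D = nI (kc + 5) t x y := ⟨_, rfl⟩
  have hD1 : 1 ≤ D := by rw [hD]; exact nI_pos hxy.le
  rw [← hD] at hP ⊢
  refine ⟨_, hP, ?_⟩
  have hDr : (1 : ℝ) ≤ D := by exact_mod_cast hD1
  have hm0r : (6 : ℝ) ≤ m0 := by exact_mod_cast hm0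
  have hp : (0 : ℝ) < 2 ^ (kc + 5) := by positivity
  have hRr : ((RR (kc + 5) : ℤ) : ℝ) ≤ 3 * 2 ^ (kc + 5) := by
    unfold RR
    push_cast
    linarith
  -- the sum of the heights
  obtain ⟨Hs, hHs⟩ : ∃ Hs : ℕ, Hs = ((lws t e l d).map hgt).sum := ⟨_, rfl⟩
  have hsum : ((∑ i ∈ range d, (3 * (hgt (lw t (e (l + i)) (e (l + i + 1))) : ℤ) + 1 + 2 * RR (kc + 5)) : ℤ) : ℝ) =
      3 * Hs + d * (1 + 2 * ((RR (kc + 5) : ℤ) : ℝ)) := by
    rw [hHs, sum_lws hgt t e l d]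
    push_cast
    rw [Finset.mul_sum]
    simp only [add_assoc]
    rw [Finset.sum_add_distrib, Finset.sum_const, Finset.card_range, nsmul_eq_mul]
  have key : (Hs : ℝ) ≤ (1 + 2 ^ s * (A0 + 1) * B) * m0 * D * 2 ^ (kc + 5) ∧ (d : ℝ) ≤ (1 + B) * m0 * D := by
    by_cases hd : d < m0
    · have hdr : (d : ℝ) ≤ m0 := by exact_mod_cast hd.le
      have h1 : Hs ≤ d * (2 ^ (kc + 5) * D) := by
        rw [hHs, sum_lws hgt t e l d]
        refine (Finset.sum_le_card_nsmul _ _ (2 ^ (kc + 5) * D) fun i hi => ?_).trans (le_of_eq ?_)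
        · rw [Finset.mem_range] at hi
          obtain ⟨l1, l2, l3, l4⟩ : 2 ≤ l ∧ l + d + 1 ≤ m ∧ x ≤ e l ∧ e (l + d) ≤ y := by
            rcases hld with h0 | h0
            · omega
            · exact h0
          obtain ⟨n, n1, -, -, n4⟩ := int_leafD ht (by omega : 1 ≤ kc + 5) hF (j := l + i) (by omega) (by omega)
          rw [hgt_eq n1]
          have a1 := lf_mono hF (i := l) (j := l + i) (by omega) (by omega)
          have a2 := lf_mono hF (i := l + i) (j := l + i + 1) (by omega) (by omega)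
          have a3 := lf_mono hF (i := l + i + 1) (j := l + d) (by omega) (by omega)
          have h2 := lvl_nI (b := kc + 5) (t := t) (x := x) (y := y) dir (i := e (l + i)) (j := e (l + i + 1))
            (by omega) (by omega) (by omega) (by omega)
          rw [n4, ← hD] at h2
          have h3 : (n : ℤ) ≤ 2 ^ (kc + 5) * D := by nlinarith
          exact_mod_cast h3
        · rw [Finset.card_range, smul_eq_mul]
      have h1r : (Hs : ℝ) ≤ d * (2 ^ (kc + 5) * D) := by exact_mod_cast h1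
      constructor
      · calc (Hs : ℝ) ≤ d * (2 ^ (kc + 5) * D) := h1r
          _ ≤ m0 * (2 ^ (kc + 5) * D) := by gcongr
          _ = 1 * m0 * D * 2 ^ (kc + 5) := by ring
          _ ≤ _ := by
              gcongr
              have : 0 ≤ 2 ^ s * ((A0 : ℝ) + 1) * B := by positivity
              linarith
      · calc (d : ℝ) ≤ 1 * m0 * 1 := by linarith
          _ ≤ _ := by
              gcongr
              linarith
    · rw [not_lt] at hd
      obtain ⟨l1, l2, l3, l4⟩ : 2 ≤ l ∧ l + d + 1 ≤ m ∧ x ≤ e l ∧ e (l + d) ≤ y := by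
        rcases hld with h0 | h0
        · omega
        · exact h0
      obtain ⟨n1, n2⟩ := hno dir d hd
      have hlen : (lws t e l d).length = d := PE.lws_length _ _ _ _
      have htv : ((lws t e l d).map fun g => hgt g / 2 ^ (kc + s)).sum < A0 * d := by
        by_contra hcon
        rw [not_lt] at hcon
        exact n1 ⟨m, u, e, hF, l, d, l1, by omega, l2, run_tv ht hF (by omega) l2 hcon,
          run_box ht hF hbx l3 l4 (by omega) l2⟩
      have hdbl : dbl (2 ^ (kc + 4)) (lws t e l d) ≤ (A0 + s) * d := by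
        have := dbl_le kc s (lws t e l d)
        rw [hlen] at this
        nlinarith
      have hdn : d < Q * (Cc * 2 ^ w0 * D + 1) := by
        by_contra hcon
        rw [not_lt] at hcon
        refine n2 (Cc * 2 ^ w0 * D) hcon ⟨m, u, e, hF, l, d, l1, by omega, l2, ?_, hdbl⟩
        exact hcs dir kc w0 mu m u l d _ x y t e ht hw0 hF hbx l3 l4 (by omega) l2 (by omega) (by rw [hD])
      have hdB : (d : ℝ) ≤ B * D := by
        have h1 : (d : ℝ) ≤ Q * (Cc * 2 ^ w0 * D + 1) := by exact_mod_cast hdn.le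
        refine h1.trans ?_
        rw [hB]
        have h2 : (Cc : ℝ) * 2 ^ w0 * D + 1 ≤ (Cc * 2 ^ w0 + 1) * D := by nlinarith
        calc (Q : ℝ) * (Cc * 2 ^ w0 * D + 1) ≤ Q * ((Cc * 2 ^ w0 + 1) * D) := by gcongr
          _ = _ := by ring
      have hH : Hs ≤ 2 ^ (kc + s) * ((A0 + 1) * d) := by
        rw [hHs]
        refine (TvL.sum_div_ge (lws t e l d) (D := 2 ^ (kc + s)) Nat.one_le_two_pow).trans ?_
        refine Nat.mul_le_mul_left _ ?_
        rw [hlen]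
        nlinarith
      have hHr : (Hs : ℝ) ≤ 2 ^ (kc + s) * ((A0 + 1) * d) := by exact_mod_cast hH
      constructor
      · calc (Hs : ℝ) ≤ 2 ^ (kc + s) * ((A0 + 1) * d) := hHr
          _ ≤ 2 ^ (kc + s) * ((A0 + 1) * (B * D)) := by gcongr
          _ = (2 ^ s * (A0 + 1) * B) * 1 * D * 2 ^ kc := by rw [pow_add]; ring
          _ ≤ _ := by
              gcongr
              · linarith
              · linarith
              · norm_num
              · omega
      · calc (d : ℝ) ≤ B * 1 * D := by linarith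
          _ ≤ (1 + B) * m0 * D := by
              gcongr
              · linarith
              · linarith
  obtain ⟨k1, k2⟩ := key
  have hgoal : (((6 * (3 * 2 ^ (kc + 5) * (D : ℤ) + 2 * RR (kc + 5)) + 2 * RR (kc + 5) +
      ∑ i ∈ range d, (3 * (hgt (lw t (e (l + i)) (e (l + i + 1))) : ℤ) + 1 + 2 * RR (kc + 5)) : ℤ)) : ℝ) =
      6 * (3 * 2 ^ (kc + 5) * D + 2 * ((RR (kc + 5) : ℤ) : ℝ)) + 2 * ((RR (kc + 5) : ℤ) : ℝ) +
      (3 * Hs + d * (1 + 2 * ((RR (kc + 5) : ℤ) : ℝ))) := by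
    rw [Int.cast_add, hsum]
    push_cast
    ring
  rw [hgoal]
  have hp1 : (1 : ℝ) ≤ 2 ^ (kc + 5) := one_le_pow₀ (by norm_num)
  have hd0 : (0 : ℝ) ≤ d := Nat.cast_nonneg _
  have hX : (1 : ℝ) ≤ m0 * D := by nlinarith
  have e1 : (d : ℝ) * (1 + 2 * ((RR (kc + 5) : ℤ) : ℝ)) ≤ 7 * ((1 + B) * m0 * D) * 2 ^ (kc + 5) := by
    calc (d : ℝ) * (1 + 2 * ((RR (kc + 5) : ℤ) : ℝ)) ≤ d * (7 * 2 ^ (kc + 5)) := by gcongr; linarith
      _ ≤ ((1 + B) * m0 * D) * (7 * 2 ^ (kc + 5)) := by gcongr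
      _ = _ := by ring
  have e2 : (2 : ℝ) ^ (kc + 5) ≤ m0 * D * 2 ^ (kc + 5) := by nlinarith
  have e3 : (D : ℝ) * 2 ^ (kc + 5) ≤ m0 * D * 2 ^ (kc + 5) / 6 := by
    have : (D : ℝ) ≤ m0 * D / 6 := by nlinarith
    nlinarith
  have e4 : (0 : ℝ) ≤ m0 * D * 2 ^ (kc + 5) := by positivity
  calc 6 * (3 * 2 ^ (kc + 5) * (D : ℝ) + 2 * ((RR (kc + 5) : ℤ) : ℝ)) + 2 * ((RR (kc + 5) : ℤ) : ℝ) +
      (3 * Hs + d * (1 + 2 * ((RR (kc + 5) : ℤ) : ℝ)))
      ≤ 18 * (D * 2 ^ (kc + 5)) + 42 * 2 ^ (kc + 5) + (3 * ((1 + 2 ^ s * (A0 + 1) * B) * m0 * D * 2 ^ (kc + 5)) +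
        7 * ((1 + B) * m0 * D) * 2 ^ (kc + 5)) := by linarith
    _ ≤ 18 * (m0 * D * 2 ^ (kc + 5) / 6) + 42 * (m0 * D * 2 ^ (kc + 5)) +
        (3 * ((1 + 2 ^ s * (A0 + 1) * B) * m0 * D * 2 ^ (kc + 5)) + 7 * ((1 + B) * m0 * D) * 2 ^ (kc + 5)) := by linarith
    _ = (55 + 7 * B + 3 * (2 ^ s * (A0 + 1) * B)) * (m0 * D * 2 ^ (kc + 5)) := by ring
    _ ≤ (70 + 7 * B + 3 * (2 ^ s * (A0 + 1) * B)) * (m0 * D * 2 ^ (kc + 5)) := by gcongr; linarith
    _ = _ := by ring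

/-- **the time spent by an arc without bad runs** -/
theorem arc_det : ∀ A0 s w0 Q : ℕ, ∃ C : ℝ, 1 ≤ C ∧ ∀ (kc mu m0 x y : ℕ) (S : ℝ) (t : List Bool), t ∈ SA →
    w0 ≤ kc → 6 ≤ m0 → x < y → Bx (kc + 5 + mu) t x y → 0 ≤ S → NoBad A0 s w0 Q mu m0 kc t →
    (∀ x' y', x ≤ x' → y' ≤ y → Bx (kc + 7) t x' y' → (y' : ℝ) - x' ≤ S) →
    (y : ℝ) - x ≤ C * m0 * nI (kc + 5) t x y * (S + 1) := by
  intro A0 s w0 Q
  obtain ⟨C, hC, h⟩ := pot_cells A0 s w0 Q
  refine ⟨2 * C + 3, by linarith, fun kc mu m0 x y S t ht hw0 hm0 hxy hbx hS hno hbox => ?_⟩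
  obtain ⟨Tf, f1, f2⟩ := h false kc mu m0 x y t ht hw0 hm0 hxy hbx hno
  obtain ⟨Tg, g1, g2⟩ := h true kc mu m0 x y t ht hw0 hm0 hxy hbx hno
  have hR : 0 < RR (kc + 5) := by
    have := RR_ge (show 1 ≤ kc + 5 by omega)
    omega
  have h1 := pot_time hR hS hxy.le f1 g1 (fun x' y' hx' hxy' hy' hr => by
    refine hbox x' y' hx' hy' ⟨hxy', hy'.trans hbx.2.1, ?_⟩
    intro dir i j hi hi' hj hj'
    obtain ⟨c1, c2⟩ := hr i j hi hi' hj hj'
    have e : (2 : ℤ) ^ (kc + 7) = 4 * 2 ^ (kc + 5) := by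
      rw [show kc + 7 = kc + 5 + 2 by ring, pow_add _ (kc + 5) 2]
      ring
    rw [e]
    unfold RR at c1 c2
    cases dir
    · linarith
    · linarith)
  obtain ⟨D, hD⟩ : ∃ D, D = nI (kc + 5) t x y := ⟨_, rfl⟩
  have hD1 : 1 ≤ D := by rw [hD]; exact nI_pos hxy.le
  rw [← hD] at f2 g2 ⊢
  have hDr : (1 : ℝ) ≤ D := by exact_mod_cast hD1
  have hm0r : (6 : ℝ) ≤ m0 := by exact_mod_cast hm0
  have hp : (0 : ℝ) < 2 ^ (kc + 5) := by positivity
  have hRr : ((RR (kc + 5) : ℤ) : ℝ) ≤ 3 * 2 ^ (kc + 5) := by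
    unfold RR
    push_cast
    linarith
  have hRl : (2 : ℝ) ^ (kc + 5) ≤ ((RR (kc + 5) : ℤ) : ℝ) := by
    have : (1 : ℝ) ≤ 2 ^ (kc + 5) := one_le_pow₀ (by norm_num)
    unfold RR
    push_cast
    linarith
  have hxyr : (0 : ℝ) ≤ (y : ℝ) - x := by
    have : (x : ℝ) ≤ y := by exact_mod_cast hxy.le
    linarith
  have hX : (1 : ℝ) ≤ m0 * D := by nlinarith
  have h2 : (2 : ℝ) ^ (kc + 5) * ((y : ℝ) - x) ≤ 2 ^ (kc + 5) * ((2 * C + 3) * m0 * D * (S + 1)) := by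
    calc (2 : ℝ) ^ (kc + 5) * ((y : ℝ) - x) ≤ ((RR (kc + 5) : ℤ) : ℝ) * ((y : ℝ) - x) := by gcongr
      _ ≤ (S + 1) * (Tf + Tg + ((RR (kc + 5) : ℤ) : ℝ)) := h1
      _ ≤ (S + 1) * (C * m0 * D * 2 ^ (kc + 5) + C * m0 * D * 2 ^ (kc + 5) + 3 * 2 ^ (kc + 5)) := by
          refine mul_le_mul_of_nonneg_left ?_ (by linarith)
          linarith
      _ ≤ (S + 1) * (C * m0 * D * 2 ^ (kc + 5) + C * m0 * D * 2 ^ (kc + 5) + 3 * ((m0 * D) * 2 ^ (kc + 5))) := by
          refine mul_le_mul_of_nonneg_left ?_ (by linarith)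
          nlinarith
      _ = _ := by ring
  exact le_of_mul_le_mul_left h2 hp

end NC

end HexObs
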