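import Pool.Agent.NC.Arc
import Pool.Agent.NC.TvRun
import Pool.Agent.NC.CrdRun
import Pool.Agent.NTA.TIDefs

/-!
NC (natural content): the norms of the two classes of bad runs; the bad events of all the scales.
-/

set_option autoImplicit false

namespace HexObs

namespace NC

open Finset TS SDN NTW NTA

open scoped ENNReal

/-- the norms of the two classes of bad runs -/
structure NcR (SR : ℕ → Set (List (List Bool)) → ℝ → Prop) : Prop where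
  tv : ∃ (A0 s k0 d0 : ℕ) (C : ℝ), 1 ≤ C ∧ ∀ kc mu d : ℕ, k0 ≤ kc → d0 ≤ d →
    SR kc (TvB kc mu s d (A0 * d)) (C ^ (mu + 1) / 4 ^ d)
  crd : ∀ Λ : ℕ, ∃ (w0 Q k0 d0 : ℕ) (C : ℝ), w0 ≤ k0 ∧ 1 ≤ Q ∧ 1 ≤ C ∧ ∀ kc mu d n : ℕ, k0 ≤ kc → d0 ≤ d →
    Q * (n + 1) ≤ d → SR kc (CrdT kc mu w0 Λ n d) (C ^ (mu + 1) / 4 ^ d)

/-- the tail of the time spent in the boxes -/
def TI {ι : Type} (m : ℕ → ℝ) (E : ι → ℕ → Set (List Bool)) (nu : ℕ → ℝ≥0∞) : Prop :=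
  ∃ C : ℝ, 1 ≤ C ∧ ∀ Q : ℕ, ∃ A : ℝ, 1 ≤ A ∧ ∀ (a : ι) (K l : ℕ) (lam : ℝ), l ≤ K → 1 ≤ lam →
    gf {t | t ∈ E a K ∧ ∃ x z, Bx (l + 2) t x z ∧ lam * m l ≤ (z : ℝ) - x} ≤
      ENNReal.ofReal (A / lam ^ Q * C ^ (K - l)) * nu K

/-- the growth of the sequence, exponent 4 / 3 -/
def MM (m : ℕ → ℝ) : Prop := ∃ c C : ℝ, 0 < c ∧ 1 ≤ C ∧ ∀ k : ℕ, c * (2 : ℝ) ^ (4 / 3 * (k : ℝ)) ≤ m k ∧
  m k ≤ C * (2 : ℝ) ^ (4 / 3 * (k : ℝ))

/-- a bad run of at least m0 leaves at the scale kc + 5 -/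
def BadN (A0 s w0 Q mu m0 kc : ℕ) (t : List Bool) : Prop :=
  ∃ (dir : Bool) (d : ℕ), m0 ≤ d ∧ (HasRun dir kc (TvB kc mu s d (A0 * d)) t ∨
    (Q ≤ d ∧ HasRun dir kc (CrdT kc mu w0 (A0 + s) (d / Q - 1) d) t))

lemma crdT_mono {kc mu w0 Λ n n' d : ℕ} (h : n ≤ n') : CrdT kc mu w0 Λ n d ⊆ CrdT kc mu w0 Λ n' d := by
  rintro gs ⟨⟨a1, a2, a3, a4, a5⟩, h2⟩
  exact ⟨⟨a1, a2, a3, a4, a5.trans h⟩, h2⟩

lemma run_mono {dir : Bool} {kc : ℕ} {R R' : Set (List (List Bool))} {t : List Bool} (h : R ⊆ R')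
    (hr : HasRun dir kc R t) : HasRun dir kc R' t := by
  obtain ⟨m, u, e, h1, l, d, h2, h3, h4, h5⟩ := hr
  exact ⟨m, u, e, h1, l, d, h2, h3, h4, h h5⟩

lemma noBad_of {A0 s w0 Q mu m0 kc : ℕ} {t : List Bool} (hQ : 1 ≤ Q) (h : ¬ BadN A0 s w0 Q mu m0 kc t) :
    NoBad A0 s w0 Q mu m0 kc t := by
  intro dir d hd
  refine ⟨fun hr => h ⟨dir, d, hd, Or.inl hr⟩, fun n hn hr => h ⟨dir, d, hd, Or.inr ⟨?_, ?_⟩⟩⟩
  · refine le_trans ?_ hn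
    exact Nat.le_mul_of_pos_right Q (Nat.succ_pos n)
  · refine run_mono (crdT_mono ?_) hr
    have h1 : n + 1 ≤ d / Q := by
      rw [Nat.le_div_iff_mul_le hQ, mul_comm]
      exact hn
    omega

/-- the sum over the number of the leaves -/
lemma run_sum {X : ℕ → Set (List Bool)} {B : ℝ} {v : ℝ≥0∞} {m0 : ℕ} (hB : 0 ≤ B)
    (h : ∀ d, m0 ≤ d → gf (X d) ≤ ENNReal.ofReal (B / 4 ^ d) * v) :
    gf (⋃ i, X (m0 + i)) ≤ ENNReal.ofReal (2 * B / 4 ^ m0) * v := by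
  refine (ENNReal.tsum_iUnion_le_tsum wE _).trans ?_
  have h1 : ∀ i, gf (X (m0 + i)) ≤ ENNReal.ofReal (B / 4 ^ m0 * (1 / 4 : ℝ) ^ i) * v := by
    intro i
    refine (h (m0 + i) (by omega)).trans (le_of_eq ?_)
    congr 2
    rw [pow_add, div_mul_eq_div_div, div_pow, one_pow, mul_one_div]
  refine (ENNReal.tsum_le_tsum h1).trans ?_
  rw [ENNReal.tsum_mul_right]
  refine mul_le_mul_left ?_ _
  have hs : Summable fun i : ℕ => (1 / 4 : ℝ) ^ i := summable_geometric_of_lt_one (by norm_num) (by norm_num)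
  rw [← ENNReal.ofReal_tsum_of_nonneg (fun i => by positivity) (hs.mul_left _), tsum_mul_left,
    tsum_geometric_of_lt_one (by norm_num) (by norm_num)]
  apply ENNReal.ofReal_le_ofReal
  have h2 : 0 ≤ B / 4 ^ m0 := by positivity
  rw [mul_div_assoc]
  nlinarith

/-- the weight of the bad runs of a scale -/
theorem bad_gf {ι : Type} {E : ι → ℕ → Set (List Bool)} {nu : ℕ → ℝ≥0∞} {SR : ℕ → Set (List (List Bool)) → ℝ → Prop}
    (hE : EnsR E nu SR) (hN : NcR SR) : ∃ (A0 s w0 Q k0 d0 : ℕ) (C : ℝ), w0 ≤ k0 ∧ 1 ≤ Q ∧ 1 ≤ C ∧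
    ∀ (a : ι) (kc J m0 : ℕ), k0 ≤ kc → 6 ≤ J → d0 ≤ m0 →
      gf {t | t ∈ E a (kc + J) ∧ BadN A0 s w0 Q (J - 3) m0 kc t} ≤ ENNReal.ofReal (C ^ J / 4 ^ m0) * nu (kc + J) := by
  obtain ⟨Ce, ke, hCe, hrun⟩ := hE.run
  obtain ⟨A0, s, k1, d1, C1, hC1, htv⟩ := hN.tv
  obtain ⟨w0, Q, k2, d2, C2, hw, hQ, hC2, hcr⟩ := hN.crd (A0 + s)
  obtain ⟨C3, hC3⟩ : ∃ C3, C3 = max C1 C2 := ⟨_, rfl⟩
  have h13 : C1 ≤ C3 := by rw [hC3]; exact le_max_left _ _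
  have h23 : C2 ≤ C3 := by rw [hC3]; exact le_max_right _ _
  have h3 : 1 ≤ C3 := hC1.trans h13
  have hCe0 : 0 ≤ Ce := by linarith
  refine ⟨A0, s, w0, Q, max ke (max k1 k2), max d1 d2, 8 * (Ce * C3), ?_, hQ, ?_, fun a kc J m0 hk hJ hm0 => ?_⟩
  · exact hw.trans ((le_max_right _ _).trans (le_max_right _ _))
  · have : 1 ≤ Ce * C3 := one_le_mul_of_one_le_of_one_le hCe h3
    linarith
  have k1' : ke ≤ kc := (le_max_left _ _).trans hk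
  have k2' : k1 ≤ kc := ((le_max_left _ _).trans (le_max_right _ _)).trans hk
  have k3' : k2 ≤ kc := ((le_max_right _ _).trans (le_max_right _ _)).trans hk
  have d1' : d1 ≤ m0 := (le_max_left _ _).trans hm0
  have d2' : d2 ≤ m0 := (le_max_right _ _).trans hm0
  obtain ⟨B, hB⟩ : ∃ B, B = (Ce * C3) ^ J := ⟨_, rfl⟩
  have hB0 : 0 ≤ B := by rw [hB]; positivity
  have hnum : ∀ (C' : ℝ) (d : ℕ), 1 ≤ C' → C' ≤ C3 → Ce ^ J * (C' ^ (J - 3 + 1) / 4 ^ d) ≤ B / 4 ^ d := by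
    intro C' d h4 h5
    have e1 : C' ^ (J - 3 + 1) ≤ C3 ^ J := by
      calc C' ^ (J - 3 + 1) ≤ C' ^ J := pow_le_pow_right₀ h4 (by omega)
        _ ≤ C3 ^ J := pow_le_pow_left₀ (by linarith) h5 _
    rw [hB, mul_pow, mul_div_assoc]
    gcongr
  have h1 : ∀ dir, gf (⋃ i, {t | t ∈ E a (kc + J) ∧ HasRun dir kc (TvB kc (J - 3) s (m0 + i) (A0 * (m0 + i))) t}) ≤
      ENNReal.ofReal (2 * B / 4 ^ m0) * nu (kc + J) := by
    intro dir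
    refine run_sum (X := fun d => {t | t ∈ E a (kc + J) ∧ HasRun dir kc (TvB kc (J - 3) s d (A0 * d)) t}) hB0
      fun d hd => ?_
    refine (hrun a dir kc J _ _ k1' hJ (by positivity) (htv kc (J - 3) d k2' (by omega))).trans ?_
    exact mul_le_mul_left (ENNReal.ofReal_le_ofReal (hnum C1 d hC1 h13)) _
  have h2 : ∀ dir, gf (⋃ i, {t | t ∈ E a (kc + J) ∧ Q ≤ m0 + i ∧
      HasRun dir kc (CrdT kc (J - 3) w0 (A0 + s) ((m0 + i) / Q - 1) (m0 + i)) t}) ≤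
      ENNReal.ofReal (2 * B / 4 ^ m0) * nu (kc + J) := by
    intro dir
    refine run_sum (X := fun d => {t | t ∈ E a (kc + J) ∧ Q ≤ d ∧
      HasRun dir kc (CrdT kc (J - 3) w0 (A0 + s) (d / Q - 1) d) t}) hB0 fun d hd => ?_
    by_cases hQd : Q ≤ d
    · have h4 : Q * (d / Q - 1 + 1) ≤ d := by
        have h5 : 1 ≤ d / Q := (Nat.one_le_div_iff hQ).2 hQd
        rw [Nat.sub_add_cancel h5]
        exact Nat.mul_div_le d Q
      refine (gf_mono fun t ht => ?_).trans ((hrun a dir kc J _ _ k1' hJ (by positivity)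
        (hcr kc (J - 3) d (d / Q - 1) k3' (by omega) h4)).trans
        (mul_le_mul_left (ENNReal.ofReal_le_ofReal (hnum C2 d hC2 h23)) _))
      exact ⟨ht.1, ht.2.2⟩
    · have h5 : {t | t ∈ E a (kc + J) ∧ Q ≤ d ∧ HasRun dir kc (CrdT kc (J - 3) w0 (A0 + s) (d / Q - 1) d) t} = ∅ := by
        ext t
        simp [hQd]
      rw [h5, show gf (∅ : Set (List Bool)) = 0 from tsum_empty]
      exact zero_le
  have hsub : {t | t ∈ E a (kc + J) ∧ BadN A0 s w0 Q (J - 3) m0 kc t} ⊆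
      ((⋃ i, {t | t ∈ E a (kc + J) ∧ HasRun false kc (TvB kc (J - 3) s (m0 + i) (A0 * (m0 + i))) t}) ∪
        (⋃ i, {t | t ∈ E a (kc + J) ∧ HasRun true kc (TvB kc (J - 3) s (m0 + i) (A0 * (m0 + i))) t})) ∪
      ((⋃ i, {t | t ∈ E a (kc + J) ∧ Q ≤ m0 + i ∧
        HasRun false kc (CrdT kc (J - 3) w0 (A0 + s) ((m0 + i) / Q - 1) (m0 + i)) t}) ∪
        (⋃ i, {t | t ∈ E a (kc + J) ∧ Q ≤ m0 + i ∧
        HasRun true kc (CrdT kc (J - 3) w0 (A0 + s) ((m0 + i) / Q - 1) (m0 + i)) t})) := by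
    rintro t ⟨ht, dir, d, hd, hor⟩
    obtain ⟨i, rfl⟩ := Nat.exists_eq_add_of_le hd
    rcases hor with h | ⟨hQd, h⟩
    · left
      cases dir
      · exact Or.inl (Set.mem_iUnion.2 ⟨i, ht, h⟩)
      · exact Or.inr (Set.mem_iUnion.2 ⟨i, ht, h⟩)
    · right
      cases dir
      · exact Or.inl (Set.mem_iUnion.2 ⟨i, ht, hQd, h⟩)
      · exact Or.inr (Set.mem_iUnion.2 ⟨i, ht, hQd, h⟩)
  refine (gf_mono hsub).trans ((gf_union_le _ _).trans ((add_le_add ((gf_union_le _ _).trans (add_le_add (h1 false)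
    (h1 true))) ((gf_union_le _ _).trans (add_le_add (h2 false) (h2 true)))).trans ?_))
  have h0 : 0 ≤ 2 * B / 4 ^ m0 := by positivity
  rw [← add_mul, ← add_mul, ← ENNReal.ofReal_add h0 h0, ← ENNReal.ofReal_add (by positivity) (by positivity)]
  refine mul_le_mul_left (ENNReal.ofReal_le_ofReal ?_) _
  have e1 : (8 : ℝ) ≤ 8 ^ J := by
    calc (8 : ℝ) = 8 ^ 1 := (pow_one _).symm
      _ ≤ 8 ^ J := pow_le_pow_right₀ (by norm_num) (by omega)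
  calc 2 * B / 4 ^ m0 + 2 * B / 4 ^ m0 + (2 * B / 4 ^ m0 + 2 * B / 4 ^ m0) = 8 * B / 4 ^ m0 := by ring
    _ ≤ 8 ^ J * B / 4 ^ m0 := by gcongr
    _ = _ := by rw [hB, mul_pow 8]

end NC

end HexObs
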