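import Pool.Agent.NC.Scales
import Pool.Agent.EN.ExtX
import Pool.Agent.EN.EmoFew
import Pool.Agent.EN.FactsX
import Pool.Agent.DIM.Defs

/-!
NC (natural content), the walks with exactly n steps: for every time interval and at every scale, the number of the visited
cells is at least the natural time times a power of the scale.
-/

set_option autoImplicit false

namespace HexObs

namespace NC

open Finset TS SDN NTW NTA EN

open scoped ENNReal

/-- every time interval visits many cells, at every scale; every number n of steps -/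
def NCA (m : ℕ → ℝ) (D : ℝ) : Prop := ∀ e ε : ℝ, 0 < e → 0 < ε → ∃ c : ℝ, 0 < c ∧ ∃ k0 : ℕ, ∀ k n : ℕ, k0 ≤ k →
  m k ≤ n → (n : ℝ) < m (k + 1) →
  gf {t | t ∈ SawN n ∧ ∃ x y j : ℕ, x < y ∧ y ≤ n ∧ j ≤ k ∧
    (nI (k - j) t x y : ℝ) < c * (((y : ℝ) - x) / n) * (2 : ℝ) ^ ((D - e) * (j : ℝ))} ≤ ENNReal.ofReal ε * nuX m k

lemma ti_of_ext {m : ℕ → ℝ} (h : EXT m) : TI m WLn (fun K => ENNReal.ofReal (Ub K / m K) * Xb K ^ 2) := by
  obtain ⟨C, hC, h⟩ := h
  refine ⟨C, hC, fun Q => ?_⟩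
  obtain ⟨A, hA, h⟩ := h Q
  refine ⟨A, hA, fun n K l lam hl hlam => (gf_mono fun t ht => ?_).trans (h n K l lam hl hlam)⟩
  exact ⟨ht.1.2, ht.1.1, ht.2⟩

theorem nca_of {m : ℕ → ℝ} {SR : ℕ → Set (List (List Bool)) → ℝ → Prop} (hm : MLow m) (hM : MM m)
    (hE : EnsR WLn (fun K => ENNReal.ofReal (Ub K / m K) * Xb K ^ 2) SR) (hN : NcR SR) (hT : EXT m) (hS : ESPw m) :
    NCA m (4 / 3) := by
  intro e ε he hε
  obtain ⟨e', he'⟩ : ∃ e', e' = min e (1 / 3) := ⟨_, rfl⟩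
  have he0 : 0 < e' := by rw [he']; exact lt_min he (by norm_num)
  have he1 : e' ≤ 1 / 3 := by rw [he']; exact min_le_right _ _
  have he2 : e' ≤ e := by rw [he']; exact min_le_left _ _
  obtain ⟨A, i0, k0, hA, htail⟩ := tail_out hS 1
  obtain ⟨i, hi0, hi1, hi2⟩ : ∃ i : ℕ, i0 ≤ i ∧ 1 ≤ i ∧ A / 2 ^ (1 * i) ≤ ε / 2 := by
    obtain ⟨n, hn⟩ := pow_unbounded_of_one_lt (2 * A / ε) (one_lt_two (α := ℝ))
    refine ⟨n + i0 + 1, by omega, by omega, ?_⟩
    have h1 : 2 * A / ε ≤ (2 : ℝ) ^ (1 * (n + i0 + 1)) := by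
      rw [one_mul]
      exact hn.le.trans (pow_le_pow_right₀ (by norm_num) (by omega))
    rw [div_le_iff₀ hε] at h1
    rw [div_le_iff₀ (by positivity)]
    linarith
  obtain ⟨D, hD, hnu⟩ := nu_up hm
  have hDi : 0 < D ^ i := by positivity
  obtain ⟨κ, hκ, hmain⟩ := nc_main hE hN hM (ti_of_ext hT) he0 he1 (ε := ε / (2 * D ^ i)) (by positivity) (le_refl (1 : ℝ))
  obtain ⟨c0, C0, hc0, hC0, hM2⟩ := hM
  obtain ⟨R, hR⟩ : ∃ R : ℝ, R = C0 / c0 * (2 : ℝ) ^ (4 / 3 * (i : ℝ)) := ⟨_, rfl⟩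
  have hR0 : 0 < R := by rw [hR]; positivity
  have hmR : ∀ k, m (k + i) ≤ R * m k := by
    intro k
    calc m (k + i) ≤ C0 * (2 : ℝ) ^ (4 / 3 * ((k + i : ℕ) : ℝ)) := (hM2 (k + i)).2
      _ = R * (c0 * (2 : ℝ) ^ (4 / 3 * (k : ℝ))) := by
          rw [hR, show C0 / c0 * (2 : ℝ) ^ (4 / 3 * (i : ℝ)) * (c0 * (2 : ℝ) ^ (4 / 3 * (k : ℝ))) =
            (C0 / c0 * c0) * ((2 : ℝ) ^ (4 / 3 * (k : ℝ)) * (2 : ℝ) ^ (4 / 3 * (i : ℝ))) by ring,
            div_mul_cancel₀ _ hc0.ne', ← Real.rpow_add (by norm_num)]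
          congr 2
          push_cast
          ring
      _ ≤ R * m k := mul_le_mul_of_nonneg_left (hM2 k).1 hR0.le
  refine ⟨κ / R, by positivity, k0, fun k n hk h1 h2 => ?_⟩
  have hmk := hm.pos k
  have hmK := hm.pos (k + i)
  have hn0 : (0 : ℝ) < n := lt_of_lt_of_le hmk h1
  have hsub : {t | t ∈ SawN n ∧ ∃ x y j : ℕ, x < y ∧ y ≤ n ∧ j ≤ k ∧
      (nI (k - j) t x y : ℝ) < κ / R * (((y : ℝ) - x) / n) * (2 : ℝ) ^ ((4 / 3 - e) * (j : ℝ))} ⊆
      {t | t ∈ WLn n (k + i) ∧ (t.length : ℝ) ≤ 1 * m (k + i) ∧ Few m e' κ (k + i) t} ∪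
        {t | t ∈ SA ∧ t.length = n ∧ t ∉ WL (k + i)} := by
    rintro t ⟨ht, x, y, j, hxy, hy, hj, hlt⟩
    by_cases hW : t ∈ WL (k + i)
    · left
      refine ⟨⟨hW, ht.1⟩, ?_, k - j, x, y, by omega, hxy, by rw [ht.1]; exact hy, hlt.trans_le ?_⟩
      · rw [ht.1, one_mul]
        have h3 := hm.low (k + 1) (i - 1)
        rw [show k + 1 + (i - 1) = k + i by omega] at h3
        have h4 : (1 : ℝ) ≤ (2 : ℝ) ^ (5 / 4 * ((i - 1 : ℕ) : ℝ)) := Real.one_le_rpow (by norm_num) (by positivity)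
        have h5 := hm.pos (k + 1)
        nlinarith
      · rw [show k + i - (k - j) = i + j by omega]
        have hxyR : (0 : ℝ) ≤ (y : ℝ) - x := by
          have : (x : ℝ) ≤ y := by exact_mod_cast hxy.le
          linarith
        have e1 : 1 / R * (((y : ℝ) - x) / n) ≤ ((y : ℝ) - x) / m (k + i) := by
          rw [one_div_mul_eq_div, div_div, div_le_div_iff₀ (by positivity) hmK]
          refine mul_le_mul_of_nonneg_left ?_ hxyR
          calc m (k + i) ≤ R * m k := hmR k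
            _ ≤ R * n := by gcongr
            _ = n * R := mul_comm _ _
        have e2 : (2 : ℝ) ^ ((4 / 3 - e) * (j : ℝ)) ≤ (2 : ℝ) ^ ((4 / 3 - e') * ((i + j : ℕ) : ℝ)) := by
          apply Real.rpow_le_rpow_of_exponent_le (by norm_num)
          push_cast
          have hj0 : (0 : ℝ) ≤ j := Nat.cast_nonneg j
          have hi0 : (0 : ℝ) ≤ i := Nat.cast_nonneg i
          nlinarith
        calc κ / R * (((y : ℝ) - x) / n) * (2 : ℝ) ^ ((4 / 3 - e) * (j : ℝ))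
            = κ * (1 / R * (((y : ℝ) - x) / n)) * (2 : ℝ) ^ ((4 / 3 - e) * (j : ℝ)) := by ring
          _ ≤ κ * (((y : ℝ) - x) / m (k + i)) * (2 : ℝ) ^ ((4 / 3 - e') * ((i + j : ℕ) : ℝ)) := by
              refine mul_le_mul (mul_le_mul_of_nonneg_left e1 hκ.le) e2 (by positivity) ?_
              exact mul_nonneg hκ.le (div_nonneg hxyR hmK.le)
    · right
      exact ⟨ht.2, ht.1, hW⟩
  refine (gf_mono hsub).trans ((gf_union_le _ _).trans ((add_le_add (hmain n (k + i))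
    (htail k i n hk hi0 h1 h2)).trans ?_))
  have h3 : ENNReal.ofReal (ε / (2 * D ^ i)) * (ENNReal.ofReal (Ub (k + i) / m (k + i)) * Xb (k + i) ^ 2) ≤
      ENNReal.ofReal (ε / 2) * nuX m k := by
    refine (mul_le_mul_right (hnu k i) _).trans ?_
    rw [← mul_assoc, ← ENNReal.ofReal_mul (by positivity)]
    refine mul_le_mul_left (ENNReal.ofReal_le_ofReal (le_of_eq ?_)) _
    field_simp
  refine (add_le_add h3 (mul_le_mul_left (ENNReal.ofReal_le_ofReal hi2) _)).trans ?_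
  rw [← add_mul, ← ENNReal.ofReal_add (by positivity) (by positivity)]
  exact mul_le_mul_left (ENNReal.ofReal_le_ofReal (by linarith)) _

/-- at the scales 0, ..., J0 -/
theorem ncx_of_nca {m : ℕ → ℝ} {D : ℝ} (h : NCA m D) : DIM.NCX m D := by
  intro e ε he hε
  obtain ⟨c, hc, k0, h⟩ := h e ε he hε
  refine ⟨c, hc, fun J0 => ⟨max k0 J0, fun k n hk h1 h2 => (gf_mono ?_).trans (h k n (le_of_max_le_left hk) h1 h2)⟩⟩
  rintro t ⟨ht, x, y, j, hxy, hy, hj, hlt⟩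
  exact ⟨ht, x, y, j, hxy, hy, hj.trans (le_of_max_le_right hk), hlt⟩

end NC

end HexObs
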