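import Pool.Agent.NC.Defs

/-!
NC (natural content): at every scale, for every time interval, the number of the visited cells is at least a power of the
scale times the natural time.
-/

set_option autoImplicit false

namespace HexObs

namespace NC

open Finset TS SDN NTW NTA

open scoped ENNReal

/-- a few cells during a time interval, at some scale -/
def Few (m : ℕ → ℝ) (e κ : ℝ) (K : ℕ) (t : List Bool) : Prop :=
  ∃ b x y : ℕ, b ≤ K ∧ x < y ∧ y ≤ t.length ∧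
    (nI b t x y : ℝ) < κ * (((y : ℝ) - x) / m K) * (2 : ℝ) ^ ((4 / 3 - e) * ((K - b : ℕ) : ℝ))

lemma MM.pos {m : ℕ → ℝ} (h : MM m) (k : ℕ) : 0 < m k := by
  obtain ⟨c, C, hc, -, h1⟩ := h
  exact lt_of_lt_of_le (by positivity) (h1 k).1

/-- an exponential beats a linear function -/
lemma lin_le {e : ℝ} (he : 0 < e) (a M : ℕ) : ∃ D : ℝ, 1 ≤ D ∧ ∀ q : ℕ, ((a * (q + 5) + M : ℕ) : ℝ) ≤
    D * (2 : ℝ) ^ (e * (q : ℝ)) := by
  obtain ⟨c, hc⟩ : ∃ c : ℝ, c = e * Real.log 2 := ⟨_, rfl⟩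
  have hc0 : 0 < c := by
    rw [hc]
    have := Real.log_pos (one_lt_two (α := ℝ))
    positivity
  refine ⟨a / c + (5 * a + M) + 1, ?_, fun q => ?_⟩
  · have : 0 ≤ (a : ℝ) / c := by positivity
    have h2 : (0 : ℝ) ≤ 5 * a + M := by positivity
    linarith
  · have h1 : (2 : ℝ) ^ (e * (q : ℝ)) = Real.exp (c * q) := by
      rw [Real.rpow_def_of_pos (by norm_num), hc]
      congr 1
      ring
    have h2 : c * q + 1 ≤ Real.exp (c * q) := Real.add_one_le_exp _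
    rw [h1]
    have hq0 : (0 : ℝ) ≤ q := Nat.cast_nonneg q
    have h3 : (a : ℝ) * q ≤ a / c * Real.exp (c * q) := by
      calc (a : ℝ) * q = a / c * (c * q) := by field_simp
        _ ≤ _ := by
            refine mul_le_mul_of_nonneg_left (by linarith) (by positivity)
    have h4 : (1 : ℝ) ≤ Real.exp (c * q) := by
      have : 0 ≤ c * q := by positivity
      linarith
    have h5 : (5 * (a : ℝ) + M) * 1 ≤ (5 * a + M) * Real.exp (c * q) := by gcongr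
    push_cast
    nlinarith

/-- the deterministic bound, one scale -/
lemma scale_num {m : ℕ → ℝ} {c Cm C D L e X : ℝ} {K q m0 n : ℕ} (hc : 0 < c) (hCm : 1 ≤ Cm) (hC : 1 ≤ C) (hD : 1 ≤ D)
    (hL : 1 ≤ L) (he : 0 < e) (hM : ∀ k : ℕ, c * (2 : ℝ) ^ (4 / 3 * (k : ℝ)) ≤ m k ∧ m k ≤ Cm * (2 : ℝ) ^ (4 / 3 * (k : ℝ)))
    (hq : q ≤ K) (hm0 : (m0 : ℝ) ≤ D * (2 : ℝ) ^ (e / 2 * (q : ℝ)))
    (hX : X ≤ C * m0 * n * ((2 : ℝ) ^ (e / 2 * (q : ℝ)) * L * m (K - q) + 1)) :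
    1 / (C * D * (L + 1 / c) * (Cm / c)) * (X / m K) * (2 : ℝ) ^ ((4 / 3 - e) * (q : ℝ)) ≤ n := by
  obtain ⟨p, hp⟩ : ∃ p : ℝ, p = (2 : ℝ) ^ (e / 2 * (q : ℝ)) := ⟨_, rfl⟩
  have hp1 : 1 ≤ p := by
    rw [hp]
    exact Real.one_le_rpow (by norm_num) (by positivity)
  rw [← hp] at hm0 hX
  obtain ⟨h1, h2⟩ := hM (K - q)
  obtain ⟨h3, -⟩ := hM K
  have hmb : 0 < m (K - q) := lt_of_lt_of_le (by positivity) h1
  have hmK : 0 < m K := lt_of_lt_of_le (by positivity) h3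
  have hone : 1 ≤ m (K - q) / c := by
    rw [le_div_iff₀ hc, one_mul]
    refine le_trans ?_ h1
    have : (1 : ℝ) ≤ (2 : ℝ) ^ (4 / 3 * ((K - q : ℕ) : ℝ)) := Real.one_le_rpow (by norm_num) (by positivity)
    nlinarith
  have hmm : m (K - q) ≤ Cm / c * (2 : ℝ) ^ (-(4 / 3 * (q : ℝ))) * m K := by
    calc m (K - q) ≤ Cm * (2 : ℝ) ^ (4 / 3 * ((K - q : ℕ) : ℝ)) := h2
      _ = Cm / c * (2 : ℝ) ^ (-(4 / 3 * (q : ℝ))) * (c * (2 : ℝ) ^ (4 / 3 * (K : ℝ))) := by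
          rw [show Cm / c * (2 : ℝ) ^ (-(4 / 3 * (q : ℝ))) * (c * (2 : ℝ) ^ (4 / 3 * (K : ℝ))) =
            (Cm / c * c) * ((2 : ℝ) ^ (-(4 / 3 * (q : ℝ))) * (2 : ℝ) ^ (4 / 3 * (K : ℝ))) by ring,
            div_mul_cancel₀ _ hc.ne', ← Real.rpow_add (by norm_num), Nat.cast_sub hq]
          congr 2
          ring
      _ ≤ _ := by gcongr
  have hn0 : (0 : ℝ) ≤ n := Nat.cast_nonneg n
  have hX2 : X ≤ C * D * (L + 1 / c) * (Cm / c) * (p * p * (2 : ℝ) ^ (-(4 / 3 * (q : ℝ)))) * m K * n := by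
    calc X ≤ C * m0 * n * (p * L * m (K - q) + 1) := hX
      _ ≤ C * (D * p) * n * (p * L * m (K - q) + p * (m (K - q) / c)) := by
          gcongr
          nlinarith
      _ = C * D * (L + 1 / c) * (p * p) * n * m (K - q) := by ring
      _ ≤ C * D * (L + 1 / c) * (p * p) * n * (Cm / c * (2 : ℝ) ^ (-(4 / 3 * (q : ℝ))) * m K) := by gcongr
      _ = _ := by ring
  have hpp : p * p * (2 : ℝ) ^ (-(4 / 3 * (q : ℝ))) * (2 : ℝ) ^ ((4 / 3 - e) * (q : ℝ)) = 1 := by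
    rw [hp, ← Real.rpow_add (by norm_num), ← Real.rpow_add (by norm_num), ← Real.rpow_add (by norm_num),
      ← Real.rpow_zero 2]
    congr 1
    ring
  have hG : 0 < C * D * (L + 1 / c) * (Cm / c) := by positivity
  have h5 : (0 : ℝ) < (2 : ℝ) ^ ((4 / 3 - e) * (q : ℝ)) := by positivity
  calc 1 / (C * D * (L + 1 / c) * (Cm / c)) * (X / m K) * (2 : ℝ) ^ ((4 / 3 - e) * (q : ℝ))
      ≤ 1 / (C * D * (L + 1 / c) * (Cm / c)) * ((C * D * (L + 1 / c) * (Cm / c) *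
          (p * p * (2 : ℝ) ^ (-(4 / 3 * (q : ℝ)))) * m K * n) / m K) * (2 : ℝ) ^ ((4 / 3 - e) * (q : ℝ)) := by gcongr
    _ = n * (p * p * (2 : ℝ) ^ (-(4 / 3 * (q : ℝ))) * (2 : ℝ) ^ ((4 / 3 - e) * (q : ℝ))) := by
        field_simp
    _ = n := by rw [hpp, mul_one]

/-- from the scales k1, ..., K - 1 to all the scales -/
lemma all_scales {m : ℕ → ℝ} {e κ1 Λ : ℝ} {K k1 : ℕ} {t : List Bool} (hmK : 0 < m K) (he : 0 < e) (he1 : e ≤ 1 / 3)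
    (hκ : 0 < κ1) (hΛ : 1 ≤ Λ) (ht : (t.length : ℝ) ≤ Λ * m K)
    (h : ∀ q x y : ℕ, 1 ≤ q → k1 + q ≤ K → x < y → y ≤ t.length →
      κ1 * (((y : ℝ) - x) / m K) * (2 : ℝ) ^ ((4 / 3 - e) * (q : ℝ)) ≤ nI (K - q) t x y) :
    ¬ Few m e (min κ1 (1 / Λ) / (2 : ℝ) ^ (4 / 3 * (k1 : ℝ))) K t := by
  rintro ⟨b, x, y, hb, hxy, hy, hlt⟩
  obtain ⟨X, hX⟩ : ∃ X : ℝ, X = ((y : ℝ) - x) / m K := ⟨_, rfl⟩
  have hxyR : (x : ℝ) ≤ y := by exact_mod_cast hxy.le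
  have hX0 : 0 ≤ X := by
    rw [hX]
    exact div_nonneg (by linarith) hmK.le
  have hXΛ : X ≤ Λ := by
    rw [hX, div_le_iff₀ hmK]
    have h1 : (y : ℝ) ≤ t.length := by exact_mod_cast hy
    have h2 : (0 : ℝ) ≤ x := Nat.cast_nonneg x
    linarith
  have hP : (1 : ℝ) ≤ (2 : ℝ) ^ (4 / 3 * (k1 : ℝ)) := Real.one_le_rpow (by norm_num) (by positivity)
  have hκ0 : 0 < min κ1 (1 / Λ) := lt_min hκ (by positivity)
  have hn1 : (1 : ℝ) ≤ nI b t x y := by exact_mod_cast nI_pos (b := b) (t := t) hxy.le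
  rw [← hX] at hlt
  apply absurd hlt
  rw [not_lt]
  have triv : K - b ≤ k1 → min κ1 (1 / Λ) / (2 : ℝ) ^ (4 / 3 * (k1 : ℝ)) * X *
      (2 : ℝ) ^ ((4 / 3 - e) * ((K - b : ℕ) : ℝ)) ≤ nI b t x y := by
    intro hKb
    have hKbR : ((K - b : ℕ) : ℝ) ≤ k1 := by exact_mod_cast hKb
    have h1 : (2 : ℝ) ^ ((4 / 3 - e) * ((K - b : ℕ) : ℝ)) ≤ (2 : ℝ) ^ (4 / 3 * (k1 : ℝ)) := by
      apply Real.rpow_le_rpow_of_exponent_le (by norm_num)
      have h0 : (0 : ℝ) ≤ ((K - b : ℕ) : ℝ) := Nat.cast_nonneg _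
      nlinarith
    calc min κ1 (1 / Λ) / (2 : ℝ) ^ (4 / 3 * (k1 : ℝ)) * X * (2 : ℝ) ^ ((4 / 3 - e) * ((K - b : ℕ) : ℝ))
        ≤ (1 / Λ) / (2 : ℝ) ^ (4 / 3 * (k1 : ℝ)) * Λ * (2 : ℝ) ^ (4 / 3 * (k1 : ℝ)) := by
          gcongr
          exact min_le_right _ _
      _ = 1 := by field_simp
      _ ≤ _ := hn1
  by_cases h1 : K - b ≤ k1
  · exact triv h1
  rw [not_le] at h1
  by_cases h2 : k1 ≤ b
  · have h3 := h (K - b) x y (by omega) (by omega) hxy hy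
    rw [Nat.sub_sub_self hb, ← hX] at h3
    refine le_trans ?_ h3
    gcongr
    rw [div_le_iff₀ (by positivity)]
    have h4 : min κ1 (1 / Λ) ≤ κ1 := min_le_left _ _
    nlinarith
  · rw [not_le] at h2
    have h3 := h (K - k1) x y (by omega) (by omega) hxy hy
    rw [Nat.sub_sub_self (by omega), ← hX] at h3
    have h4 : (nI k1 t x y : ℝ) ≤ nI b t x y := by exact_mod_cast nI_anti h2.le t x y
    refine le_trans ?_ (h3.trans h4)
    have h5 : (2 : ℝ) ^ ((4 / 3 - e) * ((K - b : ℕ) : ℝ)) ≤ (2 : ℝ) ^ (4 / 3 * (k1 : ℝ)) *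
        (2 : ℝ) ^ ((4 / 3 - e) * ((K - k1 : ℕ) : ℝ)) := by
      rw [← Real.rpow_add (by norm_num)]
      apply Real.rpow_le_rpow_of_exponent_le (by norm_num)
      have e1 : ((K - b : ℕ) : ℝ) = (K - k1 : ℕ) + ((k1 : ℝ) - b) := by
        rw [Nat.cast_sub hb, Nat.cast_sub (by omega)]
        ring
      rw [e1]
      have e2 : (b : ℝ) ≤ k1 := by exact_mod_cast h2.le
      have e3 : (0 : ℝ) ≤ b := Nat.cast_nonneg b
      nlinarith
    calc min κ1 (1 / Λ) / (2 : ℝ) ^ (4 / 3 * (k1 : ℝ)) * X * (2 : ℝ) ^ ((4 / 3 - e) * ((K - b : ℕ) : ℝ))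
        ≤ κ1 / (2 : ℝ) ^ (4 / 3 * (k1 : ℝ)) * X * ((2 : ℝ) ^ (4 / 3 * (k1 : ℝ)) *
          (2 : ℝ) ^ ((4 / 3 - e) * ((K - k1 : ℕ) : ℝ))) := by
          gcongr
          exact min_le_left _ _
      _ = _ := by
          field_simp

/-- **for every time interval and at every scale, the number of the visited cells is at least the natural time times a
power of the scale** -/
theorem nc_main {ι : Type} {m : ℕ → ℝ} {E : ι → ℕ → Set (List Bool)} {nu : ℕ → ℝ≥0∞}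
    {SR : ℕ → Set (List (List Bool)) → ℝ → Prop} (hE : EnsR E nu SR) (hN : NcR SR) (hM : MM m) (hT : TI m E nu)
    {e ε Λ : ℝ} (he : 0 < e) (he1 : e ≤ 1 / 3) (hε : 0 < ε) (hΛ : 1 ≤ Λ) : ∃ κ : ℝ, 0 < κ ∧ ∀ (a : ι) (K : ℕ),
    gf {t | t ∈ E a K ∧ (t.length : ℝ) ≤ Λ * m K ∧ Few m e κ K t} ≤ ENNReal.ofReal ε * nu K := by
  obtain ⟨A0, s, w0, Q, k0, d0, C3, hw, hQ, hC3, hbad⟩ := bad_gf hE hN
  obtain ⟨Ca, hCa, harc⟩ := arc_det A0 s w0 Q
  have hM' := hM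
  obtain ⟨c, Cm, hc, hCm, hM2⟩ := hM'
  obtain ⟨C4, hC4, hT⟩ := hT
  -- the constants
  obtain ⟨Q1, hQ1, hQ1'⟩ : ∃ Q1 : ℕ, 1 ≤ Q1 ∧ 2 * C4 ≤ ((2 : ℝ) ^ (e / 2)) ^ Q1 := by
    have h1 : (1 : ℝ) < (2 : ℝ) ^ (e / 2) := Real.one_lt_rpow (by norm_num) (by positivity)
    obtain ⟨n, hn⟩ := pow_unbounded_of_one_lt (2 * C4) h1
    exact ⟨n + 1, by omega, hn.le.trans (pow_le_pow_right₀ h1.le (by omega))⟩
  obtain ⟨A, hA, hT⟩ := hT Q1
  obtain ⟨L, hL1, hL2⟩ : ∃ L : ℝ, 1 ≤ L ∧ A / L ^ Q1 ≤ ε / 4 := by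
    refine ⟨max 1 (4 * A / ε), le_max_left _ _, ?_⟩
    have h1 : 4 * A / ε ≤ max 1 (4 * A / ε) := le_max_right _ _
    have h2 : max 1 (4 * A / ε) ≤ max 1 (4 * A / ε) ^ Q1 := by
      calc max 1 (4 * A / ε) = max 1 (4 * A / ε) ^ 1 := (pow_one _).symm
        _ ≤ _ := pow_le_pow_right₀ (le_max_left _ _) hQ1
    have h3 : 4 * A / ε ≤ max 1 (4 * A / ε) ^ Q1 := h1.trans h2
    rw [div_le_iff₀ hε] at h3
    have h4 : 0 < max 1 (4 * A / ε) ^ Q1 := by positivity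
    rw [div_le_iff₀ h4]
    linarith
  obtain ⟨a0, ha0⟩ : ∃ a0 : ℕ, 2 * C3 ≤ 4 ^ a0 := by
    obtain ⟨n, hn⟩ := pow_unbounded_of_one_lt (2 * C3) (show (1 : ℝ) < 4 by norm_num)
    exact ⟨n, hn.le⟩
  obtain ⟨M, hM6, hMd, hMe⟩ : ∃ M : ℕ, 6 ≤ M ∧ d0 ≤ M ∧ 1 / (4 : ℝ) ^ M ≤ ε / 4 := by
    obtain ⟨n, hn⟩ := pow_unbounded_of_one_lt (4 / ε) (show (1 : ℝ) < 4 by norm_num)
    refine ⟨n + d0 + 6, by omega, by omega, ?_⟩
    have h1 : 4 / ε ≤ (4 : ℝ) ^ (n + d0 + 6) := hn.le.trans (pow_le_pow_right₀ (by norm_num) (by omega))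
    rw [div_le_iff₀ hε] at h1
    rw [div_le_iff₀ (by positivity)]
    linarith
  obtain ⟨D, hD, hDq⟩ := lin_le (e := e / 2) (by positivity) a0 M
  obtain ⟨κ1, hκ1⟩ : ∃ κ1, κ1 = 1 / (Ca * D * (L + 1 / c) * (Cm / c)) := ⟨_, rfl⟩
  have hκ10 : 0 < κ1 := by
    rw [hκ1]
    positivity
  refine ⟨min κ1 (1 / Λ) / (2 : ℝ) ^ (4 / 3 * ((k0 + 5 : ℕ) : ℝ)), ?_, fun a K => ?_⟩
  · have : 0 < min κ1 (1 / Λ) := lt_min hκ10 (by positivity)
    positivity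
  have hmK := hM.pos K
  -- the bad events
  obtain ⟨B1, hB1⟩ : ∃ B1 : ℕ → Set (List Bool), ∀ q, B1 q = {t | t ∈ E a K ∧ 1 ≤ q ∧ k0 + 5 + q ≤ K ∧
    BadN A0 s w0 Q (q + 5 - 3) (a0 * (q + 5) + M) (K - q - 5) t} := ⟨_, fun _ => rfl⟩
  obtain ⟨B2, hB2⟩ : ∃ B2 : ℕ → Set (List Bool), ∀ q, B2 q = {t | t ∈ E a K ∧ q ≤ K ∧ ∃ x z, Bx (K - q + 2) t x z ∧
    (2 : ℝ) ^ (e / 2 * (q : ℝ)) * L * m (K - q) ≤ (z : ℝ) - x} := ⟨_, fun _ => rfl⟩
  have g1 : ∀ q, gf (B1 q) ≤ ENNReal.ofReal (ε / 4 * (1 / 2 : ℝ) ^ q) * nu K := by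
    intro q
    rw [hB1]
    by_cases hq : 1 ≤ q ∧ k0 + 5 + q ≤ K
    · have h1 := hbad a (K - q - 5) (q + 5) (a0 * (q + 5) + M) (by omega) (by omega) (by
        have : 0 ≤ a0 * (q + 5) := Nat.zero_le _
        omega)
      rw [show K - q - 5 + (q + 5) = K by omega] at h1
      refine (gf_mono fun t ht => ?_).trans (h1.trans (mul_le_mul_left (ENNReal.ofReal_le_ofReal ?_) _))
      · exact ⟨ht.1, ht.2.2.2⟩
      · have e1 : C3 ^ (q + 5) * 2 ^ (q + 5) ≤ (4 : ℝ) ^ (a0 * (q + 5)) := by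
          rw [pow_mul, ← mul_pow, mul_comm C3 2]
          exact pow_le_pow_left₀ (by positivity) ha0 _
        rw [pow_add 4, div_le_iff₀ (by positivity)]
        have e2 : (1 : ℝ) ≤ ε / 4 * 4 ^ M := by
          rw [div_le_iff₀ (by positivity)] at hMe
          exact hMe
        have e3 : (1 : ℝ) ≤ (1 / 2 : ℝ) ^ q * 2 ^ (q + 5) := by
          rw [pow_add 2, ← mul_assoc, ← mul_pow]
          norm_num
        have e4 : 0 ≤ C3 ^ (q + 5) := by positivity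
        calc C3 ^ (q + 5) = C3 ^ (q + 5) * 1 * 1 := by ring
          _ ≤ C3 ^ (q + 5) * ((1 / 2 : ℝ) ^ q * 2 ^ (q + 5)) * (ε / 4 * 4 ^ M) := by gcongr
          _ = ε / 4 * (1 / 2 : ℝ) ^ q * ((C3 ^ (q + 5) * 2 ^ (q + 5)) * 4 ^ M) := by ring
          _ ≤ _ := by gcongr
    · have h5 : {t | t ∈ E a K ∧ 1 ≤ q ∧ k0 + 5 + q ≤ K ∧
          BadN A0 s w0 Q (q + 5 - 3) (a0 * (q + 5) + M) (K - q - 5) t} = ∅ := by
        ext t
        simp only [Set.mem_ofPred_eq, Set.mem_empty_iff_false, iff_false]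
        rintro ⟨-, h1, h2, -⟩
        exact hq ⟨h1, h2⟩
      rw [h5, show gf (∅ : Set (List Bool)) = 0 from tsum_empty]
      exact zero_le
  have g2 : ∀ q, gf (B2 q) ≤ ENNReal.ofReal (ε / 4 * (1 / 2 : ℝ) ^ q) * nu K := by
    intro q
    rw [hB2]
    by_cases hq : q ≤ K
    · have hp1 : (1 : ℝ) ≤ (2 : ℝ) ^ (e / 2 * (q : ℝ)) := Real.one_le_rpow (by norm_num) (by positivity)
      have h1 := hT a K (K - q) ((2 : ℝ) ^ (e / 2 * (q : ℝ)) * L) (by omega) (by nlinarith)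
      rw [show K - (K - q) = q by omega] at h1
      refine (gf_mono fun t ht => ?_).trans (h1.trans (mul_le_mul_left (ENNReal.ofReal_le_ofReal ?_) _))
      · exact ⟨ht.1, ht.2.2⟩
      · have e1 : (2 : ℝ) ^ (e / 2 * (q : ℝ)) = ((2 : ℝ) ^ (e / 2)) ^ q := by
          rw [Real.rpow_mul (by norm_num), Real.rpow_natCast]
        have e2 : (2 * C4) ^ q ≤ (((2 : ℝ) ^ (e / 2)) ^ q) ^ Q1 := by
          rw [← pow_mul, mul_comm q Q1, pow_mul]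
          exact pow_le_pow_left₀ (by positivity) hQ1' _
        rw [e1, mul_pow]
        have e3 : 0 < (((2 : ℝ) ^ (e / 2)) ^ q) ^ Q1 := by positivity
        have e4 : C4 ^ q / (((2 : ℝ) ^ (e / 2)) ^ q) ^ Q1 ≤ (1 / 2 : ℝ) ^ q := by
          rw [div_le_iff₀ e3]
          calc C4 ^ q = (1 / 2 : ℝ) ^ q * (2 * C4) ^ q := by
                rw [← mul_pow]
                congr 1
                ring
            _ ≤ _ := by gcongr
        calc A / ((((2 : ℝ) ^ (e / 2)) ^ q) ^ Q1 * L ^ Q1) * C4 ^ q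
            = A / L ^ Q1 * (C4 ^ q / (((2 : ℝ) ^ (e / 2)) ^ q) ^ Q1) := by
              field_simp
          _ ≤ ε / 4 * (1 / 2 : ℝ) ^ q := by gcongr
    · have h5 : {t | t ∈ E a K ∧ q ≤ K ∧ ∃ x z, Bx (K - q + 2) t x z ∧
          (2 : ℝ) ^ (e / 2 * (q : ℝ)) * L * m (K - q) ≤ (z : ℝ) - x} = ∅ := by
        ext t
        simp [hq]
      rw [h5, show gf (∅ : Set (List Bool)) = 0 from tsum_empty]
      exact zero_le
  -- the covering
  have hcov : {t | t ∈ E a K ∧ (t.length : ℝ) ≤ Λ * m K ∧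
      Few m e (min κ1 (1 / Λ) / (2 : ℝ) ^ (4 / 3 * ((k0 + 5 : ℕ) : ℝ))) K t} ⊆ (⋃ q, B1 q) ∪ ⋃ q, B2 q := by
    rintro t ⟨htE, hlen, hfew⟩
    by_contra hcon
    rw [Set.mem_union, not_or, Set.mem_iUnion, Set.mem_iUnion, not_exists, not_exists] at hcon
    obtain ⟨n1, n2⟩ := hcon
    refine all_scales hmK he he1 hκ10 hΛ hlen (fun q x y hq hqK hxy hy => ?_) hfew
    have htW := hE.sub a K htE
    have hbK := bx_all htW
    have hbx : Bx (K - q - 5 + 5 + (q + 5 - 3)) t x y := by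
      rw [show K - q - 5 + 5 + (q + 5 - 3) = K + 2 by omega]
      exact ⟨hxy.le, hy, fun dir i j _ hi' _ hj' => hbK.2.2 dir i j (by omega) (by omega) (by omega) (by omega)⟩
    have hno : NoBad A0 s w0 Q (q + 5 - 3) (a0 * (q + 5) + M) (K - q - 5) t := by
      refine noBad_of hQ fun hbad' => n1 q ?_
      rw [hB1]
      exact ⟨htE, hq, hqK, hbad'⟩
    have hp0 : (0 : ℝ) < (2 : ℝ) ^ (e / 2 * (q : ℝ)) := by positivity
    have hmq := hM.pos (K - q)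
    have h1 := harc (K - q - 5) (q + 5 - 3) (a0 * (q + 5) + M) x y ((2 : ℝ) ^ (e / 2 * (q : ℝ)) * L * m (K - q)) t htW.1
      (by omega) (by
        have : 0 ≤ a0 * (q + 5) := Nat.zero_le _
        omega) hxy hbx (by positivity) hno (fun x' y' _ _ hb' => by
        by_contra hcon
        rw [not_le] at hcon
        refine n2 q ?_
        rw [hB2]
        rw [show K - q - 5 + 7 = K - q + 2 by omega] at hb'
        exact ⟨htE, by omega, x', y', hb', hcon.le⟩)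
    rw [show K - q - 5 + 5 = K - q by omega] at h1
    rw [hκ1]
    exact scale_num hc hCm hCa hD hL1 he hM2 (by omega) (hDq q) h1
  refine (gf_mono hcov).trans ((gf_union_le _ _).trans ((add_le_add (ENNReal.tsum_iUnion_le_tsum wE _)
    (ENNReal.tsum_iUnion_le_tsum wE _)).trans ((add_le_add (ENNReal.tsum_le_tsum g1) (ENNReal.tsum_le_tsum g2)).trans ?_)))
  have hs : Summable fun i : ℕ => (1 / 2 : ℝ) ^ i := summable_geometric_of_lt_one (by norm_num) (by norm_num)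
  have hsum : ∑' q : ℕ, ENNReal.ofReal (ε / 4 * (1 / 2 : ℝ) ^ q) * nu K = ENNReal.ofReal (ε / 2) * nu K := by
    rw [ENNReal.tsum_mul_right, ← ENNReal.ofReal_tsum_of_nonneg (fun i => by positivity) (hs.mul_left _), tsum_mul_left,
      tsum_geometric_of_lt_one (by norm_num) (by norm_num)]
    congr 2
    norm_num
    ring
  rw [hsum, ← add_mul, ← ENNReal.ofReal_add (by positivity) (by positivity)]
  exact mul_le_mul_left (ENNReal.ofReal_le_ofReal (by linarith)) _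

end NC

end HexObs
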